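import Pool.Agent.Lib.P2baQ.Fold
import Pool.Agent.Lib.P2baL.InstA

/-!
# Module P2baQ.BipM: the double cover

PROOF of `ret_iff_dc`. H is irreflexive (hcls) and symmetric (T.symm).
(⇒) Let h : n0 ≤ g.n and r be given. BipOK: c a = cl (r a) for a < g.n, true otherwise (GN g a b
gives a, b < g.n, `gn_lt`, and adjacency, `adjN_fin`); c i = cl (en i) for i < n0. RetCore of dc:
n0 ≤ n0 + 2 g.n. Classes: `col cl en i` is cl (en i) for i < n0 and (i - n0) % 2 = 1 otherwise.
relD of the first kind: GN g i j gives H (r i) (r j) with r i = en i, r j = en j, so the classes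
differ by hcls. Second kind: by its last clause. Third kind: parities 0 and 1. (The relation of mkG is
made symmetric: also for exchanged i, j.) The map: r' i = en i for i < n0, and for i ≥ n0,
q = (i - n0)/2, ε = ((i - n0) % 2 = 1): r' i = r q if c q = ε, u ε otherwise (q < g.n as
i < n0 + 2 g.n), where u : Bool → V with ht (u ε) = 0, H (u false) (u true) (an edge of the core:
`T.deg` at some core vertex, hcore; choose the order by hcls: the class of u ε may be arbitrary, take
any edge). Adjacency: first kind: H (r i) (r j). Second kind: GN g v q, so c q ≠ c v = cl (en v), and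
the last clause says ε ≠ cl (en v), so c q = ε and r' j = r q; H (r v) (r q), r v = en v. Third kind:
GN g q q', so c q ≠ c q'; ε = false, ε' = true: either c q = false, c q' = true: r q, r q'; or
c q = true, c q' = false: u false, u true.
(⇐) Let c be as in BipOK and r' for dc. r q = en q for q < n0, r q = r' (n0 + 2 q + (c q)) for
n0 ≤ q < g.n (index < n0 + 2 g.n). G.Adj q q': both < n0: relD of the first kind (different indices),
values r' q = en q. q < n0 ≤ q': relD q (n0 + 2 q' + c q') of the second kind: the last clause since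
c q' ≠ c q = cl (en q); index arithmetic (n0 + 2 q' + ε - n0)/2 = q'. q' < n0 ≤ q: symmetric. Both
≥ n0: c q ≠ c q'; if c q = false, c q' = true third kind; otherwise the third kind with q, q'
exchanged (H symmetric).
You may use a lemma like `ret_mkG` for RetCore.
-/

set_option autoImplicit false

namespace Pool.Agent.Lib.P2baQ

open Pool.Agent.Lib.P2ba8ab Pool.Agent.Lib.P2baR Pool.Agent.Lib.P2baL

namespace BipMAux

theorem adj_mkG0 {N : ℕ} {R : ℕ → ℕ → Prop} (a b : Fin N) :
    (SimpleGraph.fromRel (fun a b : Fin N => R a b)).Adj a b ↔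
      a.1 ≠ b.1 ∧ (R a b ∨ R b a) := by
  rw [SimpleGraph.fromRel_adj]
  constructor
  · rintro ⟨h1, h2⟩
    exact ⟨fun h3 => h1 (Fin.ext h3), h2⟩
  · rintro ⟨h1, h2⟩
    exact ⟨fun h3 => h1 (congrArg Fin.val h3), h2⟩

theorem adj_mkG' {N : ℕ} {R : ℕ → ℕ → Prop} (a b : Fin (mkG N R).n) :
    (mkG N R).G.Adj a b ↔ a.1 ≠ b.1 ∧ (R a b ∨ R b a) := adj_mkG0 (N := N) a b

theorem ret_nat {V : Type} {H : V → V → Prop} {ht : V → ℕ} (hcore : ∃ v, ht v = 0)
    {n0 : ℕ} (en : Fin n0 ≃ Core ht) (g : Gr) :
    Ret H ht en g ↔ n0 ≤ g.n ∧ ∃ r : ℕ → V, (∀ a, ht (r a) = 0) ∧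
      (∀ a b, GN g a b → H (r a) (r b)) ∧ ∀ i : Fin n0, r i = (en i).1 := by
  obtain ⟨v0, hv0⟩ := hcore
  constructor
  · rintro ⟨h, r, h1, h2, h3⟩
    refine ⟨h, fun a => if ha : a < g.n then r ⟨a, ha⟩ else v0, ?_, ?_, ?_⟩
    · intro a
      by_cases ha : a < g.n
      · simp only [dif_pos ha]; exact h1 _
      · simp only [dif_neg ha]; exact hv0
    · intro a b hab
      obtain ⟨ha, hb, -⟩ := gn_lt hab
      simp only [dif_pos ha, dif_pos hb]
      exact h2 _ _ ((adjN_fin g ⟨a, ha⟩ ⟨b, hb⟩).1 hab)
    · intro i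
      have hi : i.1 < g.n := lt_of_lt_of_le i.2 h
      simp only [dif_pos hi]
      exact h3 i
  · rintro ⟨h, r, h1, h2, h3⟩
    refine ⟨h, fun a => r a, fun a => h1 _, ?_, ?_⟩
    · intro a b hab
      exact h2 _ _ ((adjN_fin g a b).2 hab)
    · intro i
      exact h3 i

theorem retcore_mkG {V : Type} {H : V → V → Prop} {ht : V → ℕ} (hH : ∀ a b, H a b → H b a)
    (hcore : ∃ v, ht v = 0) (cl : V → Bool) {n0 : ℕ} (en : Fin n0 ≃ Core ht) (N : ℕ)
    (R : ℕ → ℕ → Prop) :
    RetCore H ht cl en (mkG N R) ↔ n0 ≤ N ∧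
      (∀ a b, a < N → b < N → a ≠ b → R a b → col cl en a ≠ col cl en b) ∧
      ∃ r : ℕ → V, (∀ a, ht (r a) = 0) ∧
      (∀ a b, a < N → b < N → a ≠ b → R a b → H (r a) (r b)) ∧
      ∀ i : Fin n0, r i = (en i).1 := by
  obtain ⟨v0, hv0⟩ := hcore
  constructor
  · rintro ⟨h, h0, r, h1, h2, h3⟩
    refine ⟨h, ?_, fun a => if ha : a < N then r ⟨a, ha⟩ else v0, ?_, ?_, ?_⟩
    · intro a b ha hb hab hR
      exact h0 ⟨a, ha⟩ ⟨b, hb⟩ ((adj_mkG' _ _).2 ⟨hab, Or.inl hR⟩)
    · intro a
      by_cases ha : a < N
      · simp only [dif_pos ha]; exact h1 _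
      · simp only [dif_neg ha]; exact hv0
    · intro a b ha hb hab hR
      simp only [dif_pos ha, dif_pos hb]
      exact h2 ⟨a, ha⟩ ⟨b, hb⟩ ((adj_mkG' _ _).2 ⟨hab, Or.inl hR⟩)
    · intro i
      have hi : i.1 < N := lt_of_lt_of_le i.2 h
      simp only [dif_pos hi]
      exact h3 i
  · rintro ⟨h, h0, r, h1, h2, h3⟩
    refine ⟨h, ?_, fun a => r a, fun a => h1 _, ?_, ?_⟩
    · intro a b hab
      obtain ⟨h4, h5 | h5⟩ := (adj_mkG' _ _).1 hab
      · exact h0 _ _ a.2 b.2 h4 h5
      · exact (h0 _ _ b.2 a.2 (Ne.symm h4) h5).symm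
    · intro a b hab
      obtain ⟨h4, h5 | h5⟩ := (adj_mkG' _ _).1 hab
      · exact h2 _ _ a.2 b.2 h4 h5
      · exact hH _ _ (h2 _ _ b.2 a.2 (Ne.symm h4) h5)
    · intro i
      exact h3 i

theorem col_lt {V : Type} {ht : V → ℕ} {n0 : ℕ} (cl : V → Bool) (en : Fin n0 ≃ Core ht) {a : ℕ}
    (h : a < n0) : col cl en a = cl (en ⟨a, h⟩).1 := by
  unfold col
  rw [dif_pos h]

theorem col_ge {V : Type} {ht : V → ℕ} {n0 : ℕ} (cl : V → Bool) (en : Fin n0 ≃ Core ht) {a : ℕ}
    (h : n0 ≤ a) : col cl en a = decide ((a - n0) % 2 = 1) := by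
  unfold col
  rw [dif_neg (not_lt.2 h)]

/-- the parity of a vertex of the double cover -/
def pr (n0 i : ℕ) : Bool := decide ((i - n0) % 2 = 1)

theorem iff_pr {n0 i : ℕ} {b : Bool} (h : ¬ (b = true ↔ (i - n0) % 2 = 1)) : b ≠ pr n0 i := by
  intro h1
  apply h
  rw [h1, pr, decide_eq_true_eq]

theorem pr_iff {n0 i : ℕ} {b : Bool} (h : b ≠ pr n0 i) : ¬ (b = true ↔ (i - n0) % 2 = 1) := by
  intro h1
  apply h
  rw [pr, Bool.eq_iff_iff, decide_eq_true_eq]
  exact h1

theorem ne_ne {a b c : Bool} (h1 : a ≠ b) (h2 : a ≠ c) : b = c := by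
  revert h1 h2; cases a <;> cases b <;> cases c <;> simp

open Classical in
/-- the map of the double cover -/
noncomputable def rr {V : Type} (cl : V → Bool) (r : ℕ → V) (u : Bool → V) (n0 i : ℕ) : V :=
  if i < n0 then r i else
    if cl (r ((i - n0) / 2)) = pr n0 i then r ((i - n0) / 2) else u (pr n0 i)

theorem rr_lt {V : Type} (cl : V → Bool) (r : ℕ → V) (u : Bool → V) {n0 i : ℕ} (h : i < n0) :
    rr cl r u n0 i = r i := by
  unfold rr
  rw [if_pos h]

theorem rr_eq {V : Type} (cl : V → Bool) (r : ℕ → V) (u : Bool → V) {n0 i : ℕ} (h : n0 ≤ i)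
    (h1 : cl (r ((i - n0) / 2)) = pr n0 i) : rr cl r u n0 i = r ((i - n0) / 2) := by
  unfold rr
  rw [if_neg (not_lt.2 h), if_pos h1]

theorem rr_ne {V : Type} (cl : V → Bool) (r : ℕ → V) (u : Bool → V) {n0 i : ℕ} (h : n0 ≤ i)
    (h1 : cl (r ((i - n0) / 2)) ≠ pr n0 i) : rr cl r u n0 i = u (pr n0 i) := by
  unfold rr
  rw [if_neg (not_lt.2 h), if_neg h1]

end BipMAux

open BipMAux

theorem ret_iff_dc {V : Type} {H : V → V → Prop} {par : V → V} {ht : V → ℕ} {cl : V → Bool}
    (T : TreesP H par ht) (hcls : ∀ a b, H a b → cl a ≠ cl b) (hcore : ∃ v, ht v = 0)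
    {n0 : ℕ} (en : Fin n0 ≃ Core ht) (g : Gr) :
    Ret H ht en g ↔ n0 ≤ g.n ∧ BipOK cl en g ∧
      RetCore H ht cl en (mkG (n0 + 2 * g.n) (relD cl en g)) := by
  rw [ret_nat hcore, retcore_mkG T.symm hcore]
  constructor
  · rintro ⟨hn, r, h1, h2, h3⟩
    have hc : ∀ a b, GN g a b → cl (r a) ≠ cl (r b) := fun a b h => hcls _ _ (h2 a b h)
    refine ⟨hn, ⟨fun a => cl (r a), hc, fun i => by simp only [h3 i]⟩, by omega, ?_, ?_⟩
    · intro a b _ _ hne hR
      rcases hR with ⟨ha, hb, hab⟩ | ⟨hb, hb2, v, rfl, hab, hp⟩ | ⟨ha, _, hb, _, _, h5, h6⟩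
      · rw [col_lt cl en ha, col_lt cl en hb]
        have h4 := hc a b hab
        have h5 := h3 ⟨a, ha⟩
        have h6 := h3 ⟨b, hb⟩
        simp only at h5 h6
        rw [h5, h6] at h4
        exact h4
      · rw [col_lt cl en v.2, col_ge cl en hb]
        exact iff_pr hp
      · rw [col_ge cl en ha, col_ge cl en hb]
        intro h7
        have h8 := decide_eq_decide.1 h7
        omega
    · obtain ⟨v0, hv0⟩ := hcore
      obtain ⟨x, hx0, hvx⟩ := T.nb v0 hv0
      refine ⟨rr cl r (fun e => if e then x else v0) n0, ?_, ?_, ?_⟩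
      · intro a
        by_cases ha : a < n0
        · rw [rr_lt cl r _ ha]; exact h1 a
        · by_cases hb : cl (r ((a - n0) / 2)) = pr n0 a
          · rw [rr_eq cl r _ (not_lt.1 ha) hb]; exact h1 _
          · rw [rr_ne cl r _ (not_lt.1 ha) hb]
            by_cases he : pr n0 a = true
            · simp only [he, if_true]; exact hx0
            · simp only [he]; exact hv0
      · intro a b _ _ hne hR
        rcases hR with ⟨ha, hb, hab⟩ | ⟨hb, hb2, v, rfl, hab, hp⟩ |
          ⟨ha, _, hb, _, hab, h5, h6⟩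
        · rw [rr_lt cl r _ ha, rr_lt cl r _ hb]
          exact h2 a b hab
        · have h7 : cl (r v) = cl (en v).1 := by rw [h3 v]
          have h8 : cl (r ((b - n0) / 2)) = pr n0 b := by
            apply ne_ne (a := cl (r v))
            · exact hc _ _ hab
            · rw [h7]; exact iff_pr hp
          rw [rr_lt cl r _ v.2, rr_eq cl r _ hb h8]
          exact h2 _ _ hab
        · have ha1 : pr n0 a = false := by
            unfold pr; rw [decide_eq_false_iff_not]; omega
          have hb1 : pr n0 b = true := by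
            unfold pr; rw [decide_eq_true_eq]; exact h6
          have h7 := hc _ _ hab
          by_cases h8 : cl (r ((a - n0) / 2)) = pr n0 a
          · have h9 : cl (r ((b - n0) / 2)) = pr n0 b := by
              rw [hb1]
              rw [h8, ha1] at h7
              revert h7
              cases cl (r ((b - n0) / 2)) <;> simp
            rw [rr_eq cl r _ ha h8, rr_eq cl r _ hb h9]
            exact h2 _ _ hab
          · have h9 : cl (r ((b - n0) / 2)) ≠ pr n0 b := by
              rw [hb1]
              rw [ha1] at h8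
              revert h7 h8
              cases cl (r ((b - n0) / 2)) <;> cases cl (r ((a - n0) / 2)) <;> simp
            rw [rr_ne cl r _ ha h8, rr_ne cl r _ hb h9, ha1, hb1]
            simp only [if_true]
            exact hvx
      · intro i
        rw [rr_lt cl r _ i.2]
        exact h3 i
  · rintro ⟨hn, ⟨c, hc1, hc2⟩, _, _, r', h1, h2, h3⟩
    refine ⟨hn, fun q => if q < n0 then r' q else r' (n0 + 2 * q + (if c q = true then 1 else 0)),
      ?_, ?_, ?_⟩
    · intro a
      by_cases ha : a < n0
      · simp only [ha, if_true]; exact h1 _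
      · simp only [ha]; exact h1 _
    · have key1 : ∀ a b, GN g a b → a < n0 → n0 ≤ b →
          H (r' a) (r' (n0 + 2 * b + (if c b = true then 1 else 0))) := by
        intro a b hab ha hb
        obtain ⟨hga, hgb, -⟩ := gn_lt hab
        have he : (if c b = true then 1 else 0) < 2 := by split_ifs <;> omega
        have hd : (n0 + 2 * b + (if c b = true then 1 else 0) - n0) / 2 = b := by omega
        refine h2 _ _ (by omega) (by omega) (by omega) (Or.inr (Or.inl ⟨by omega, ?_, ⟨a, ha⟩,
          rfl, ?_, ?_⟩))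
        · rw [hd]; exact hb
        · rw [hd]; exact hab
        · have h4 := hc2 ⟨a, ha⟩
          simp only at h4
          rw [← h4]
          have h5 := hc1 a b hab
          by_cases h6 : c b = true
          · simp only [h6, if_true]
            rw [h6] at h5
            intro h7
            apply h5
            apply h7.2
            omega
          · simp only [h6]
            have h8 : c a = true := by
              revert h5 h6; cases c a <;> cases c b <;> simp
            intro h7
            have := h7.1 h8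
            simp at this
      have key2 : ∀ a b, GN g a b → n0 ≤ a → n0 ≤ b → c a = false → c b = true →
          H (r' (n0 + 2 * a)) (r' (n0 + 2 * b + 1)) := by
        intro a b hab ha hb hca hcb
        obtain ⟨hga, hgb, -⟩ := gn_lt hab
        have hd : (n0 + 2 * a - n0) / 2 = a := by omega
        have hd' : (n0 + 2 * b + 1 - n0) / 2 = b := by omega
        refine h2 _ _ (by omega) (by omega) (by omega) (Or.inr (Or.inr ⟨by omega, by omega,
          by omega, by omega, ?_, by omega, by omega⟩))
        rw [hd, hd']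
        exact hab
      intro a b hab
      obtain ⟨hga, hgb, hne⟩ := gn_lt hab
      by_cases ha : a < n0
      · by_cases hb : b < n0
        · simp only [ha, hb, if_true]
          exact h2 _ _ (by omega) (by omega) hne (Or.inl ⟨ha, hb, hab⟩)
        · simp only [ha, if_true, hb]
          exact key1 a b hab ha (not_lt.1 hb)
      · by_cases hb : b < n0
        · simp only [ha, hb, if_true]
          exact T.symm _ _ (key1 b a (gn_symm hab) hb (not_lt.1 ha))
        · simp only [ha, hb]
          have h5 := hc1 a b hab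
          by_cases h6 : c a = true
          · have h7 : c b = false := by
              revert h5 h6; cases c a <;> cases c b <;> simp
            simp only [h6, h7]
            exact T.symm _ _ (key2 b a (gn_symm hab) (not_lt.1 hb) (not_lt.1 ha) h7 h6)
          · have h7 : c b = true := by
              revert h5 h6; cases c a <;> cases c b <;> simp
            simp only [h6, h7]
            exact key2 a b hab (not_lt.1 ha) (not_lt.1 hb) (by simpa using h6) h7
    · intro i
      simp only [i.2, if_true]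
      exact h3 i

end Pool.Agent.Lib.P2baQ
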