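import Pool.Agent.Lib.P2baQ.Fold

/-!
# Module P2baQ.Cls: if the target is bipartite then the given graph has the given bipartition
-/

set_option autoImplicit false
set_option linter.unusedSectionVars false

namespace Pool.Agent.Lib.P2baQ

open Pool.Agent.Lib.P2ba8ab Pool.Agent.Lib.P2baR Pool.Agent.Lib.P2baL

theorem walk_cl {V : Type} {H : V → V → Prop} {cl : V → Bool} (hc : ∀ a b, H a b → cl a ≠ cl b)
    {n : ℕ} {a b : V} (h : Walk H n a b) : cl a = cl b ↔ Even n := by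
  induction n generalizing a with
  | zero =>
    obtain rfl : a = b := h
    simp
  | succ n ih =>
    obtain ⟨w, hw, hwb⟩ := h
    have h1 := ih hwb
    have h2 := hc a w hw
    rw [Nat.even_add_one, ← h1]
    revert h2
    cases cl a <;> cases cl b <;> cases cl w <;> simp

theorem inv_hom {C : Type} [Finite C] (R : C → C → Prop) (α : C ≃ C)
    (h : ∀ v w, R v w → R (α v) (α w)) (v w : C) (hvw : R v w) : R (α.symm v) (α.symm w) := by
  let F : {p : C × C // R p.1 p.2} → {p : C × C // R p.1 p.2} :=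
    fun p => ⟨(α p.1.1, α p.1.2), h _ _ p.2⟩
  have hF : Function.Injective F := by
    rintro ⟨⟨a, b⟩, hab⟩ ⟨⟨c, d⟩, hcd⟩ heq
    have h1 := congrArg Subtype.val heq
    have h2 := Prod.ext_iff.1 h1
    have h3 : a = c := α.injective h2.1
    have h4 : b = d := α.injective h2.2
    subst h3 h4
    rfl
  obtain ⟨⟨⟨a, b⟩, hab⟩, heq⟩ := Finite.surjective_of_injective hF ⟨(v, w), hvw⟩
  have h1 := congrArg Subtype.val heq
  have h2 := Prod.ext_iff.1 h1
  have h3 : α a = v := h2.1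
  have h4 : α b = w := h2.2
  rw [← h3, ← h4, Equiv.symm_apply_apply, Equiv.symm_apply_apply]
  exact hab

/-- if the target is bipartite then the edges of the given graph join different classes -/
theorem sound_cls {V : Type} {H : V → V → Prop} {par : V → V} {ht : V → ℕ}
    {cl : V → Bool} {v0 : V} {len : Bool → ℕ} {e L : ℕ} {P : Type}
    (D : DatP H par ht cl v0 len e L) (hcls : ∀ a b, H a b → cl a ≠ cl b)
    (E : P → P → Prop) (hE : ∀ p, ¬ E p p)
    (clP : P → Bool) (ι : Core ht → P) (hcl : ∀ v, clP (ι v) = cl v.1)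
    (h : SurjHom (gr H par ht len e E clP ι (ι ⟨v0, D.v0c⟩)) H) :
    ∀ p q, E p q → clP p ≠ clP q := by
  classical
  obtain ⟨f, hf, -⟩ := h
  have he : 0 < e := D.epos
  have hirr : ∀ v, ¬ H v v := fun v hv => hcls v v hv rfl
  have hadj2 : ∀ p q, E p q →
      (gr H par ht len e E clP ι (ι ⟨v0, D.v0c⟩)).Adj (Sum.inr (p, ⟨0, he⟩))
        (Sum.inr (q, ⟨0, he⟩)) := by
    intro p q hpq
    unfold gr
    rw [SimpleGraph.fromRel_adj]
    refine ⟨?_, Or.inl (Or.inl ⟨rfl, rfl, Or.inl hpq⟩)⟩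
    intro h1
    have h2 : p = q := (Prod.ext_iff.1 (Sum.inr.inj h1)).1
    subst h2
    exact hE _ hpq
  have hwalk : ∀ p : P, Walk (gr H par ht len e E clP ι (ι ⟨v0, D.v0c⟩)).Adj (len (clP p))
      (Sum.inr (p, ⟨0, he⟩)) (Sum.inr (ι ⟨v0, D.v0c⟩, ⟨0, he⟩)) := by
    intro p
    have h1 : ∀ i, ∀ hi : i < len (clP p),
        Walk (gr H par ht len e E clP ι (ι ⟨v0, D.v0c⟩)).Adj i
        (Sum.inr (p, ⟨0, he⟩)) (Sum.inr (p, ⟨i, lt_of_lt_of_le hi (D.lene _)⟩)) := by
      intro i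
      induction i with
      | zero => intro hi; exact rfl
      | succ i ih =>
        intro hi
        refine (ih (by omega)).snoc ?_
        unfold gr
        rw [SimpleGraph.fromRel_adj]
        refine ⟨?_, Or.inl (Or.inr (Or.inl ⟨rfl, rfl, hi⟩))⟩
        intro h1
        have h2 := (Prod.ext_iff.1 (Sum.inr.inj h1)).2
        have h3 := congrArg Fin.val h2
        simp at h3
    have hl := D.len1 (clP p)
    obtain ⟨m, hm⟩ : ∃ m, len (clP p) = m + 1 := ⟨len (clP p) - 1, by omega⟩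
    have h2 := h1 m (by omega)
    have h3 : Walk (gr H par ht len e E clP ι (ι ⟨v0, D.v0c⟩)).Adj (m + 1)
        (Sum.inr (p, ⟨0, he⟩)) (Sum.inr (ι ⟨v0, D.v0c⟩, ⟨0, he⟩)) := by
      refine h2.snoc ?_
      unfold gr
      rw [SimpleGraph.fromRel_adj]
      refine ⟨?_, Or.inl (Or.inr (Or.inr ⟨rfl, rfl, le_of_eq hm⟩))⟩
      intro h4
      have h5 := Prod.ext_iff.1 (Sum.inr.inj h4)
      have h6 : p = ι ⟨v0, D.v0c⟩ := h5.1
      have h7 : m = 0 := congrArg Fin.val h5.2
      have h8 := D.walk v0 D.v0c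
      rw [← hcl ⟨v0, D.v0c⟩, ← h6, hm, h7] at h8
      obtain ⟨w, hw, hw'⟩ := h8
      have hw2 : w = v0 := hw'
      rw [hw2] at hw
      exact hirr _ hw.2.2
    rw [hm]
    exact h3
  intro p q hpq heq
  have h1 := (hwalk p).map hf
  have h2 := (hwalk q).map hf
  have h3 := walk_cl hcls h1
  have h4 := walk_cl hcls h2
  rw [← heq, ← h3] at h4
  have h5 := hcls _ _ (hf _ _ (hadj2 p q hpq))
  revert h4 h5
  cases cl (f (Sum.inr (p, ⟨0, he⟩))) <;> cases cl (f (Sum.inr (q, ⟨0, he⟩))) <;>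
    cases cl (f (Sum.inr (ι ⟨v0, D.v0c⟩, ⟨0, he⟩))) <;> simp

end Pool.Agent.Lib.P2baQ
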