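import Pool.Agent.Lib.P2baQ.Forest

/-!
# Module P2baQ.Conn: connected sets of vertices of the instance

The proofs are small changes of those in `Lib/P2baL/Conn.lean` (copy them): the set K replaces the
core. `conn_UK`: every vertex of UK is joined to (ι k0, 0), k0 ∈ K: (ι v, 0) with v ∈ K: `hK.conn v k0`
mapped by v ↦ (ι v, 0), skipping loops; tree vertices: down to the root, which is in K by `hK.roots`
(the root of z ∈ St Yt); ways: to (ι v0, 0), and v0 ∈ K by `hv` since Y2 is not empty, then inside K.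
-/

set_option autoImplicit false
set_option linter.unusedSectionVars false

namespace Pool.Agent.Lib.P2baQ

open Pool.Agent.Lib.P2ba8ab Pool.Agent.Lib.P2baR Pool.Agent.Lib.P2baL

variable {V : Type} {H : V → V → Prop} {par : V → V} {ht : V → ℕ} {cl : V → Bool} {v0 : V}
  {len : Bool → ℕ} {e L : ℕ} {P : Type}

theorem card_UK [Fintype P] [Fintype V] (clP : P → Bool)
    (ι : Core ht → P) (he : 0 < e) (K : Finset V) (Yt : Finset V)
    (Y2 : Finset (P × Fin e)) :
    (UK par ht len clP ι he K Yt Y2).card ≤ K.card + (St par ht Yt).card + e * Y2.card := by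
  classical
  have hway : ∀ y : P × Fin e, (way ht len clP y : Finset (W ht P e)).card ≤ e := by
    intro y
    have hsub : (way ht len clP y : Finset (W ht P e)) ⊆
        (Finset.univ : Finset (Fin e)).image (fun i => (Sum.inr (y.1, i) : W ht P e)) := by
      intro w hw
      obtain ⟨i, rfl, -⟩ := (Finset.mem_filter.1 hw).2
      exact Finset.mem_image.2 ⟨i, Finset.mem_univ _, rfl⟩
    calc (way ht len clP y : Finset (W ht P e)).card ≤ _ := Finset.card_le_card hsub
      _ ≤ (Finset.univ : Finset (Fin e)).card := Finset.card_image_le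
      _ = e := by rw [Finset.card_univ, Fintype.card_fin]
  have hsub : UK par ht len clP ι he K Yt Y2 ⊆
      (((Finset.univ : Finset (Core ht)).filter (fun v => v.1 ∈ K)).image
          (fun v => (Sum.inr (ι v, ⟨0, he⟩) : W ht P e)) ∪
        ((Finset.univ : Finset {x : V // 0 < ht x}).filter
          (fun z => z.1 ∈ St par ht Yt)).image (fun z => (Sum.inl z : W ht P e))) ∪
        Y2.biUnion (fun y => way ht len clP y) := by
    intro w hw
    rcases (Finset.mem_filter.1 hw).2 with ⟨v, rfl, hv⟩ | ⟨z, rfl, hz⟩ | ⟨y, hy, hwy⟩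
    · exact Finset.mem_union_left _ (Finset.mem_union_left _
        (Finset.mem_image.2 ⟨v, Finset.mem_filter.2 ⟨Finset.mem_univ _, hv⟩, rfl⟩))
    · exact Finset.mem_union_left _ (Finset.mem_union_right _
        (Finset.mem_image.2 ⟨z, Finset.mem_filter.2 ⟨Finset.mem_univ _, hz⟩, rfl⟩))
    · exact Finset.mem_union_right _ (Finset.mem_biUnion.2 ⟨y, hy, hwy⟩)
  have h1 : (((Finset.univ : Finset (Core ht)).filter (fun v => v.1 ∈ K)).image
      (fun v => (Sum.inr (ι v, ⟨0, he⟩) : W ht P e))).card ≤ K.card := by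
    refine Finset.card_image_le.trans ?_
    refine Finset.card_le_card_of_injOn Subtype.val ?_ Subtype.val_injective.injOn
    intro z hz
    exact (Finset.mem_filter.1 hz).2
  have h2 : (((Finset.univ : Finset {x : V // 0 < ht x}).filter
      (fun z => z.1 ∈ St par ht Yt)).image (fun z => (Sum.inl z : W ht P e))).card ≤
      (St par ht Yt).card := by
    refine Finset.card_image_le.trans ?_
    refine Finset.card_le_card_of_injOn Subtype.val ?_ Subtype.val_injective.injOn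
    intro z hz
    exact (Finset.mem_filter.1 hz).2
  have h3 : (Y2.biUnion (fun y => (way ht len clP y : Finset (W ht P e)))).card ≤
      e * Y2.card := by
    refine Finset.card_biUnion_le.trans ?_
    refine (Finset.sum_le_card_nsmul _ _ e (fun y _ => hway y)).trans (le_of_eq ?_)
    rw [smul_eq_mul, mul_comm]
  calc (UK par ht len clP ι he K Yt Y2).card ≤ _ := Finset.card_le_card hsub
    _ ≤ _ := Finset.card_union_le _ _
    _ ≤ _ := Nat.add_le_add_right (Finset.card_union_le _ _) _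
    _ ≤ _ := Nat.add_le_add (Nat.add_le_add h1 h2) h3

theorem conn_UK [Fintype P] [Fintype V] (D : DatP H par ht cl v0 len e L) (E : P → P → Prop)
    (clP : P → Bool) (ι : Core ht → P) (hι : Function.Injective ι)
    (he : 0 < e) (K : Finset V) (hK : KS H par ht K) (Yt : Finset V) (Y2 : Finset (P × Fin e))
    (hv : Y2.Nonempty → v0 ∈ K) (k0 : Core ht) (hk0 : k0.1 ∈ K) (w : W ht P e)
    (hw : w ∈ UK par ht len clP ι he K Yt Y2) :
    ∃ n, Walk (In (gr H par ht len e E clP ι (ι ⟨v0, D.v0c⟩)).Adj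
      (↑(UK par ht len clP ι he K Yt Y2) : Set (W ht P e))) n w
      (Sum.inr (ι k0, ⟨0, he⟩)) := by
  classical
  set UU : Set (W ht P e) := (↑(UK par ht len clP ι he K Yt Y2) : Set (W ht P e)) with hUU
  set A := (gr H par ht len e E clP ι (ι ⟨v0, D.v0c⟩)).Adj with hA
  have adj : ∀ a b : W ht P e, a ≠ b → Rel H par ht len E clP ι (ι ⟨v0, D.v0c⟩) a b → A a b := by
    intro a b hab h
    rw [hA]
    show (SimpleGraph.fromRel _).Adj a b
    rw [SimpleGraph.fromRel_adj]
    exact ⟨hab, Or.inl h⟩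
  have memC : ∀ v : Core ht, v.1 ∈ K → (Sum.inr (ι v, ⟨0, he⟩) : W ht P e) ∈ UU := fun v hv =>
    Finset.mem_coe.2 (Finset.mem_filter.2 ⟨Finset.mem_univ _, Or.inl ⟨v, rfl, hv⟩⟩)
  have memT : ∀ z : {x : V // 0 < ht x}, z.1 ∈ St par ht Yt → (Sum.inl z : W ht P e) ∈ UU :=
    fun z hz => Finset.mem_coe.2 (Finset.mem_filter.2 ⟨Finset.mem_univ _, Or.inr (Or.inl ⟨z, rfl, hz⟩)⟩)
  have memW : ∀ y ∈ Y2, ∀ w ∈ (way ht len clP y : Finset (W ht P e)), w ∈ UU :=
    fun y hy w hw => Finset.mem_coe.2 (Finset.mem_filter.2 ⟨Finset.mem_univ _, Or.inr (Or.inr ⟨y, hy, hw⟩)⟩)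
  -- walks in the core
  have core : ∀ (n : ℕ) (u v : V) (hu : ht u = 0) (hv : ht v = 0),
      Walk (In (HC H ht) (↑K : Set V)) n u v →
      ∃ m, Walk (In A UU) m (Sum.inr (ι ⟨u, hu⟩, ⟨0, he⟩)) (Sum.inr (ι ⟨v, hv⟩, ⟨0, he⟩)) := by
    intro n
    induction n with
    | zero =>
      intro u v hu hv h
      have h' : u = v := h
      subst h'
      exact ⟨0, rfl⟩
    | succ n ih =>
      rintro u v hu hv ⟨x, ⟨huK, hxK, -, hx, hux⟩, hw⟩
      obtain ⟨m, hm⟩ := ih x v hx hv hw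
      by_cases hne : u = x
      · subst hne
        exact ⟨m, hm⟩
      refine ⟨m + 1, Sum.inr (ι ⟨x, hx⟩, ⟨0, he⟩),
        ⟨memC ⟨u, hu⟩ (Finset.mem_coe.1 huK), memC ⟨x, hx⟩ (Finset.mem_coe.1 hxK),
          adj _ _ ?_ ?_⟩, hm⟩
      · intro heq
        have h1 : ι ⟨u, hu⟩ = ι ⟨x, hx⟩ := congrArg Prod.fst (Sum.inr.inj heq)
        exact hne (congrArg Subtype.val (hι h1))
      · exact Or.inl ⟨rfl, rfl, Or.inr ⟨⟨u, hu⟩, ⟨x, hx⟩, rfl, rfl, hux⟩⟩
  have coreE : ∀ v : Core ht, v.1 ∈ K → ∃ n, Walk (In A UU) n (Sum.inr (ι v, ⟨0, he⟩))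
      (Sum.inr (ι k0, ⟨0, he⟩)) := by
    intro v hvK
    obtain ⟨n, hn⟩ := hK.conn v.1 hvK k0.1 hk0
    exact core n v.1 k0.1 v.2 k0.2 hn
  have tree : ∀ (k : ℕ) (z : {x : V // 0 < ht x}), ht z.1 = k → z.1 ∈ St par ht Yt →
      ∃ n, Walk (In A UU) n (Sum.inl z) (Sum.inr (ι k0, ⟨0, he⟩)) := by
    intro k
    induction k using Nat.strong_induction_on with
    | _ k ih =>
      intro z hk hz
      have hzp := D.trees.ht_par z.1 z.2
      rcases Nat.eq_zero_or_pos (ht (par z.1)) with h0 | h0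
      · have hpK : par z.1 ∈ K := by
          have h1 := hK.roots z.1 z.2
          rwa [← root_par D.trees z.1 z.2, root_core _ h0] at h1
        obtain ⟨n, hn⟩ := coreE ⟨par z.1, h0⟩ hpK
        exact ⟨n + 1, _, ⟨memT z hz, memC ⟨par z.1, h0⟩ hpK, adj _ _ (by intro h; cases h)
          ⟨rfl, ⟨par z.1, h0⟩, rfl, rfl⟩⟩, hn⟩
      · have hz' : par z.1 ∈ St par ht Yt := by
          obtain ⟨x, hx, hzx⟩ := (Finset.mem_filter.1 hz).2
          exact Finset.mem_filter.2 ⟨Finset.mem_univ _, x, hx,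
            anc_par_closed D.trees hzx h0⟩
        obtain ⟨n, hn⟩ := ih (ht (par z.1)) (by omega) ⟨par z.1, h0⟩ rfl hz'
        refine ⟨n + 1, _, ⟨memT z hz, memT ⟨par z.1, h0⟩ hz', adj _ _ ?_ (D.trees.adj_par z.1 z.2)⟩,
          hn⟩
        intro h
        have h1 := congrArg (fun q : {x : V // 0 < ht x} => ht q.1) (Sum.inl.inj h)
        simp only at h1
        omega
  have wayE : ∀ (y : P × Fin e), y ∈ Y2 → ∀ (k : ℕ) (i : Fin e), e - i.1 = k →
      ((y.2 ≤ i ∧ i.1 < len (clP y.1)) ∨ i = y.2) →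
      ∃ n, Walk (In A UU) n (Sum.inr (y.1, i)) (Sum.inr (ι k0, ⟨0, he⟩)) := by
    intro y hy k
    have hv0 : v0 ∈ K := hv ⟨y, hy⟩
    induction k using Nat.strong_induction_on with
    | _ k ih =>
      intro i hk hi
      have hin : (Sum.inr (y.1, i) : W ht P e) ∈ UU :=
        memW y hy _ (Finset.mem_filter.2 ⟨Finset.mem_univ _, i, rfl, hi⟩)
      have hyi : y.2 ≤ i := by
        rcases hi with h | h
        · exact h.1
        · exact h ▸ le_rfl
      by_cases hlt : i.1 + 1 < len (clP y.1)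
      · have hie : i.1 + 1 < e := lt_of_lt_of_le hlt (D.lene _)
        have hi' : (y.2 ≤ (⟨i.1 + 1, hie⟩ : Fin e) ∧ (⟨i.1 + 1, hie⟩ : Fin e).1 < len (clP y.1)) ∨
            (⟨i.1 + 1, hie⟩ : Fin e) = y.2 := by
          left
          refine ⟨?_, hlt⟩
          rw [Fin.le_def] at hyi ⊢
          simp only
          omega
        obtain ⟨n, hn⟩ := ih (e - (i.1 + 1)) (by omega) ⟨i.1 + 1, hie⟩ rfl hi'
        refine ⟨n + 1, _, ⟨hin, memW y hy _ (Finset.mem_filter.2 ⟨Finset.mem_univ _, _, rfl, hi'⟩),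
          adj _ _ ?_ (Or.inr (Or.inl ⟨rfl, rfl, hlt⟩))⟩, hn⟩
        intro h
        have h1 := congrArg (fun q : P × Fin e => q.2.1) (Sum.inr.inj h)
        simp only at h1
        omega
      · obtain ⟨n, hn⟩ := coreE ⟨v0, D.v0c⟩ hv0
        by_cases heq : (Sum.inr (y.1, i) : W ht P e) = Sum.inr (ι ⟨v0, D.v0c⟩, ⟨0, he⟩)
        · exact ⟨n, heq ▸ hn⟩
        · exact ⟨n + 1, _, ⟨hin, memC ⟨v0, D.v0c⟩ hv0,
            adj _ _ heq (Or.inr (Or.inr ⟨rfl, rfl, by omega⟩))⟩, hn⟩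
  rcases (Finset.mem_filter.1 hw).2 with ⟨v, rfl, hvK⟩ | ⟨z, rfl, hz⟩ | ⟨y, hy, hwy⟩
  · exact coreE v hvK
  · exact tree _ z rfl hz
  · obtain ⟨i, rfl, hi⟩ := (Finset.mem_filter.1 hwy).2
    exact wayE y hy _ i rfl hi

end Pool.Agent.Lib.P2baQ
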