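import Pool.Agent.Lib.P2baQ.Forest

/-!
# Module P2baQ.Core: connected sets of vertices of the target

PROOFS.
`root_adj`: if H a c then both a and c have height 0, or root a = root c (by `tree`: c = a, or
c = par a with 0 < ht a (`root_par`), or a = par c with 0 < ht c; if ht a = 0 and 0 < ht c use `tree`
for H c a; note `root_core`).
`core_walk`: induction on n (generalising a). n = 0: a = b, root a = a. Step a → c: if both have
height 0: root a = a, root c = c, use the induction hypothesis for c (root c = c ∈ B) and add the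
step. Otherwise root a = root c: induction hypothesis for c.
`exists_minK`: the set of all core vertices satisfies KS (connected: every a is joined to v0 by
`D.walk`, all vertices of a walk in HC are in the core; symmetry `Walk.symm`, concatenate), so choose
one of least cardinality among all `Finset V` (`Finset.exists_min_image` on a filter of univ).
`extend_K`: let k ∈ K (K is not empty: `D.two` and `roots`). `D.walk k` is a walk from k to v0 of
length len (cl k) ≤ e in HC; by `Walk.exists_fun` it is given by w 0 = k, ..., w n = v0, n ≤ e. Let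
K2 = K ∪ image of w on {1, ..., n}: at most |K| + e elements, core vertices, connected: every w i is
joined to w 0 = k ∈ K inside K2 and K is connected inside K2 (`Walk.map` / monotone in the set).
`card_tops`: the ways below different elements of Tops are disjoint: if Anc z x and Anc z y then
root x = root z = root y (`anc_root`), so x = y by `D.uniq`. `card_anc`: |St {x}| = ht x = L.
St (Tops) is the disjoint union of the St {x} (`Finset.card_biUnion`).
`card_St_le`: |St Y| ≤ ∑_{y ∈ Y} ht y by `Finset.card_biUnion_le` and `card_anc`.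
`lower`: let B be connected and contain all vertices of height L. (1) St Tops ⊆ B: z with Anc z x,
ht x = L; by `D.two` there is y with ht y = L and root y ≠ root x; not Anc z y; `cross_anc` for a
walk from x to y in B. (2) the core vertices of B form a KS: core clear. roots: for x with 0 < ht x
let t with ht t = L, root t = root x (`D.has`); y with ht y = L and another root; `cross_root` for a
walk from t to y in B with v = root t gives root t ∈ B (ht t = L > 0 since L > 2 e; y is not a vertex of
positive height with root v). conn: `core_walk` with root a = a.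
-/

set_option autoImplicit false
set_option linter.unusedSectionVars false

namespace Pool.Agent.Lib.P2baQ

open Pool.Agent.Lib.P2ba8ab Pool.Agent.Lib.P2baR Pool.Agent.Lib.P2baL

variable {V : Type} {H : V → V → Prop} {par : V → V} {ht : V → ℕ} {cl : V → Bool} {v0 : V}
  {len : Bool → ℕ} {e L : ℕ}

namespace CoreAux

theorem append {X : Type} {G : X → X → Prop} {m n : ℕ} {a b c : X} (h : Walk G m a b)
    (h' : Walk G n b c) : Walk G (m + n) a c := by
  induction m generalizing a with
  | zero =>
    have h1 : a = b := h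
    subst h1
    simpa using h'
  | succ m ih =>
    obtain ⟨x, hx, hw⟩ := h
    rw [Nat.succ_add]
    exact ⟨x, hx, ih hw⟩

theorem mono {X : Type} {G G' : X → X → Prop} (hG : ∀ u v, G u v → G' u v) {n : ℕ} {a b : X}
    (h : Walk G n a b) : Walk G' n a b :=
  Walk.map (g := id) hG h

theorem inMono {X : Type} {G : X → X → Prop} {B B' : Set X} (hB : ∀ x ∈ B, x ∈ B') {n : ℕ}
    {a b : X} (h : Walk (In G B) n a b) : Walk (In G B') n a b :=
  mono (fun _ _ h => ⟨hB _ h.1, hB _ h.2.1, h.2.2⟩) h

theorem hc_symm (T : TreesP H par ht) {B : Set V} {n : ℕ} {a b : V}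
    (h : Walk (In (HC H ht) B) n a b) : Walk (In (HC H ht) B) n b a :=
  Walk.symm (fun _ _ h => ⟨h.2.1, h.1, h.2.2.2.1, h.2.2.1, T.symm _ _ h.2.2.2.2⟩) h

theorem root_adj (T : TreesP H par ht) {a c : V} (h : H a c) :
    (ht a = 0 ∧ ht c = 0) ∨ root par ht a = root par ht c := by
  by_cases ha : 0 < ht a
  · right
    rcases T.tree a c h ha with hc | hc | ⟨hc, hac⟩
    · rw [hc]
    · rw [hc, root_par T a ha]
    · rw [hac, root_par T c hc]
  · by_cases hc : 0 < ht c
    · right
      rcases T.tree c a (T.symm _ _ h) hc with hd | hd | ⟨hd, hac⟩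
      · rw [hd]
      · rw [hd, root_par T c hc]
      · exact absurd hd ha
    · exact Or.inl ⟨by omega, by omega⟩

theorem other [Fintype V] (D : DatP H par ht cl v0 len e L) (v : V) :
    ∃ y, ht y = L ∧ root par ht y ≠ v := by
  obtain ⟨x, y, hx, hy, hne⟩ := D.two
  by_cases h : root par ht x = v
  · exact ⟨y, hy, fun h' => hne (by rw [h, h'])⟩
  · exact ⟨x, hx, h⟩

theorem Lpos (D : DatP H par ht cl v0 len e L) : 0 < L := by
  have := D.big
  omega

open Classical in
theorem St_eq [Fintype V] (Y : Finset V) :
    St par ht Y = Y.biUnion (fun x => St par ht {x}) := by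
  ext z
  simp [St]

end CoreAux

open CoreAux

theorem core_walk (T : TreesP H par ht) {B : Set V} {n : ℕ} {a b : V}
    (hw : Walk (In H B) n a b) (hr : root par ht a ∈ B) (hb : ht b = 0) :
    ∃ m, Walk (In (HC H ht) {v | v ∈ B ∧ ht v = 0}) m (root par ht a) b := by
  induction n generalizing a with
  | zero =>
    have h1 : a = b := hw
    subst h1
    exact ⟨0, root_core a hb⟩
  | succ n ih =>
    obtain ⟨c, hac, hw'⟩ := hw
    rcases root_adj T hac.2.2 with ⟨ha, hc⟩ | hrt
    · obtain ⟨m, hm⟩ := ih hw' (by rw [root_core c hc]; exact hac.2.1)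
      rw [root_core c hc] at hm
      refine ⟨m + 1, c, ?_, hm⟩
      rw [root_core a ha]
      exact ⟨⟨hac.1, ha⟩, ⟨hac.2.1, hc⟩, ha, hc, hac.2.2⟩
    · obtain ⟨m, hm⟩ := ih hw' (by rw [← hrt]; exact hr)
      exact ⟨m, by rw [hrt]; exact hm⟩

theorem exists_minK [Fintype V] (D : DatP H par ht cl v0 len e L) :
    ∃ K : Finset V, KS H par ht K ∧ ∀ K' : Finset V, KS H par ht K' → K.card ≤ K'.card := by
  classical
  have h0 : KS H par ht (Finset.univ.filter (fun v => ht v = 0)) := by
    have key : ∀ a, ht a = 0 → ∃ n, Walk (In (HC H ht)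
        (↑(Finset.univ.filter (fun v => ht v = 0)) : Set V)) n a v0 := fun a ha =>
      ⟨_, mono (fun u v h => ⟨by simpa using h.1, by simpa using h.2.1, h⟩) (D.walk a ha)⟩
    refine ⟨fun v hv => by simpa using hv, fun a ha b hb => ?_, fun x _ => ?_⟩
    · obtain ⟨n, hn⟩ := key a (by simpa using ha)
      obtain ⟨m, hm⟩ := key b (by simpa using hb)
      exact ⟨n + m, append hn (hc_symm D.trees hm)⟩
    · simpa using ht_root D.trees x
  obtain ⟨K, hK, hmin⟩ := Finset.exists_min_image
    ((Finset.univ : Finset (Finset V)).filter (fun K => KS H par ht K)) Finset.card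
    ⟨_, by simpa using h0⟩
  exact ⟨K, by simpa using hK, fun K' hK' => hmin K' (by simpa using hK')⟩

theorem extend_K [Fintype V] (D : DatP H par ht cl v0 len e L) {K : Finset V}
    (hK : KS H par ht K) : ∃ K2 : Finset V, KS H par ht K2 ∧ v0 ∈ K2 ∧ K2.card ≤ K.card + e := by
  classical
  obtain ⟨x, _, hx, _, _⟩ := D.two
  have hkK : root par ht x ∈ K := hK.roots x (by rw [hx]; exact Lpos D)
  set k := root par ht x with hk
  have hk0 : ht k = 0 := hK.core k hkK
  obtain ⟨w, hw0, hwn, hw⟩ := (D.walk k hk0).exists_fun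
  set n := len (cl k) with hn
  have hn1 : 1 ≤ n := D.len1 _
  have hne : n ≤ e := D.lene _
  set K2 : Finset V := K ∪ (Finset.range n).image (fun i => w (i + 1)) with hK2
  have hsub : ∀ v ∈ K, v ∈ K2 := fun v hv => Finset.mem_union_left _ hv
  have hwK : ∀ i, i ≤ n → w i ∈ K2 := by
    intro i hi
    rcases i with _ | i
    · rw [hw0]
      exact hsub k hkK
    · exact Finset.mem_union_right _ (Finset.mem_image.2 ⟨i, Finset.mem_range.2 (by omega), rfl⟩)
  have hwalk : ∀ i, i ≤ n → Walk (In (HC H ht) (↑K2 : Set V)) i k (w i) := by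
    intro i hi
    have h1 : Walk (In (HC H ht) (↑K2 : Set V)) i (w 0) (w i) := by
      apply Walk.of_fun
      intro j hj
      exact ⟨hwK j (by omega), hwK (j + 1) (by omega), hw j (by omega)⟩
    rw [hw0] at h1
    exact h1
  have hconn : ∀ a ∈ K2, ∃ m, Walk (In (HC H ht) (↑K2 : Set V)) m k a := by
    intro a ha
    rcases Finset.mem_union.1 ha with h | h
    · obtain ⟨m, hm⟩ := hK.conn k hkK a h
      exact ⟨m, inMono (fun v hv => by simpa using hsub v (by simpa using hv)) hm⟩
    · obtain ⟨i, hi, rfl⟩ := Finset.mem_image.1 h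
      exact ⟨i + 1, hwalk (i + 1) (by have := Finset.mem_range.1 hi; omega)⟩
  refine ⟨K2, ⟨?_, ?_, ?_⟩, ?_, ?_⟩
  · intro v hv
    rcases Finset.mem_union.1 hv with h | h
    · exact hK.core v h
    · obtain ⟨i, hi, rfl⟩ := Finset.mem_image.1 h
      exact (hw i (Finset.mem_range.1 hi)).2.1
  · intro a ha b hb
    obtain ⟨m, hm⟩ := hconn a ha
    obtain ⟨m', hm'⟩ := hconn b hb
    exact ⟨m + m', append (hc_symm D.trees hm) hm'⟩
  · intro y hy
    exact hsub _ (hK.roots y hy)
  · rw [← hwn]
    exact hwK n (le_refl n)
  · calc K2.card ≤ K.card + ((Finset.range n).image (fun i => w (i + 1))).card :=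
        Finset.card_union_le _ _
      _ ≤ K.card + n := by
        have := Finset.card_image_le (s := Finset.range n) (f := fun i => w (i + 1))
        rw [Finset.card_range] at this
        omega
      _ ≤ K.card + e := by omega

theorem card_tops [Fintype V] (D : DatP H par ht cl v0 len e L) :
    (St par ht (Tops ht L)).card = (Tops ht L).card * L := by
  classical
  rw [St_eq, Finset.card_biUnion]
  · rw [Finset.sum_congr rfl (g := fun _ => L), Finset.sum_const, smul_eq_mul]
    intro x hx
    rw [card_anc D.trees x]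
    simpa [Tops] using hx
  · intro x hx y hy hxy
    rw [Function.onFun, Finset.disjoint_left]
    intro z hz hz'
    have h1 : Anc par ht z x := by simpa [St] using hz
    have h2 : Anc par ht z y := by simpa [St] using hz'
    apply hxy
    apply D.uniq x y (by simpa [Tops] using hx) (by simpa [Tops] using hy)
    rw [← anc_root D.trees h1, anc_root D.trees h2]

theorem card_St_le [Fintype V] (T : TreesP H par ht) (Y : Finset V) :
    (St par ht Y).card ≤ ∑ y ∈ Y, ht y := by
  classical
  rw [St_eq]
  refine Finset.card_biUnion_le.trans (Finset.sum_le_sum fun y _ => ?_)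
  rw [card_anc T y]

open Classical in
theorem lower [Fintype V] (D : DatP H par ht cl v0 len e L) (B : Finset V)
    (hB : ∀ a ∈ B, ∀ b ∈ B, ∃ n, Walk (In H (↑B : Set V)) n a b)
    (hT : ∀ x, ht x = L → x ∈ B) :
    KS H par ht (B.filter (fun v => ht v = 0)) ∧ St par ht (Tops ht L) ⊆ B := by
  have hT' := D.trees
  constructor
  · refine ⟨fun v hv => (Finset.mem_filter.1 hv).2, fun a ha b hb => ?_, fun x hx => ?_⟩
    · obtain ⟨haB, ha0⟩ := Finset.mem_filter.1 ha
      obtain ⟨hbB, hb0⟩ := Finset.mem_filter.1 hb
      obtain ⟨n, hn⟩ := hB a haB b hbB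
      obtain ⟨m, hm⟩ := core_walk hT' hn (by rw [root_core a ha0]; exact haB) hb0
      rw [root_core a ha0] at hm
      refine ⟨m, inMono (fun v hv => ?_) hm⟩
      have hv1 : v ∈ B := hv.1
      have hv2 : ht v = 0 := hv.2
      simp [hv1, hv2]
    · obtain ⟨t, ht1, ht2⟩ := D.has x hx
      obtain ⟨y, hy1, hy2⟩ := other D (root par ht x)
      obtain ⟨n, hn⟩ := hB t (hT t ht1) y (hT y hy1)
      have h1 : root par ht x ∈ (↑B : Set V) :=
        cross_root hT' hn (by rw [ht1]; exact Lpos D) ht2 (fun h => hy2 h.2)
      exact Finset.mem_filter.2 ⟨h1, ht_root hT' x⟩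
  · intro z hz
    obtain ⟨x, hx, hzx⟩ : ∃ x ∈ Tops ht L, Anc par ht z x := by simpa [St] using hz
    have hxL : ht x = L := by simpa [Tops] using hx
    obtain ⟨y, hy1, hy2⟩ := other D (root par ht x)
    obtain ⟨n, hn⟩ := hB x (hT x hxL) y (hT y hy1)
    have h1 : z ∈ (↑B : Set V) := cross_anc hT' hn hzx (fun h => hy2 (by
      rw [← anc_root hT' h, anc_root hT' hzx]))
    exact h1

end Pool.Agent.Lib.P2baQ
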