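import Pool.Agent.Lib.P2baQ.Defs
import Pool.Agent.Lib.P2baL.InstA

/-!
# Module P2baQ.WDc: weak retractions and the double cover

PROOF. This is the direction (⇐) of `ret_iff_dc` in Lib/P2baL/BipM.lean for weak retractions (see
that file; its proof can be copied when it has landed). Let c be as in BipOK and let r' be the weak
retraction of dc := mkG (n0 + 2 g.n) (relD cl en g). r q = r' q for q < n0, r q = r' (n0 + 2 q + c q)
for n0 ≤ q < g.n. G.Adj q q': both < n0: relD of the first kind. q < n0 ≤ q':
relD q (n0 + 2 q' + c q') of the second kind: the last clause since c q' ≠ c q = cl (en q); index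
arithmetic (n0 + 2 q' + ε - n0) / 2 = q'. q' < n0 ≤ q: symmetric. Both ≥ n0: c q ≠ c q'; if
c q = false, c q' = true: third kind; otherwise the third kind with q, q' exchanged. All these pairs
of indices are different, so they are adjacent in mkG.
-/

set_option autoImplicit false

namespace Pool.Agent.Lib.P2baQ

open Pool.Agent.Lib.P2ba8ab Pool.Agent.Lib.P2baR Pool.Agent.Lib.P2baL

namespace WDcAux

/-- index of the vertex of the double cover which stands for `q` -/
def ix (n0 : ℕ) (c : ℕ → Bool) (q : ℕ) : ℕ := if q < n0 then q else n0 + 2 * q + (c q).toNat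

theorem ix_lt {n0 n : ℕ} (c : ℕ → Bool) {q : ℕ} (hq : q < n) :
    ix n0 c q < n0 + 2 * n := by
  unfold ix
  have := Bool.toNat_le (c q)
  split_ifs <;> omega

theorem ix_rel {V : Type} {ht : V → ℕ} {cl : V → Bool} {n0 : ℕ} (en : Fin n0 ≃ Core ht) (g : Gr)
    (c : ℕ → Bool) (hc : ∀ a b, GN g a b → c a ≠ c b) (hc0 : ∀ i : Fin n0, c i = cl (en i).1)
    {q q' : ℕ} (hqq : GN g q q') (hgs : GN g q' q) :
    relD cl en g (ix n0 c q) (ix n0 c q') ∨ relD cl en g (ix n0 c q') (ix n0 c q) := by
  have hne := hc q q' hqq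
  have t1 := Bool.toNat_le (c q)
  have t2 := Bool.toNat_le (c q')
  by_cases h1 : q < n0
  · by_cases h2 : q' < n0
    · left
      unfold ix
      rw [if_pos h1, if_pos h2]
      exact Or.inl ⟨h1, h2, hqq⟩
    · left
      unfold ix
      rw [if_pos h1, if_neg h2]
      have e1 : (n0 + 2 * q' + (c q').toNat - n0) / 2 = q' := by omega
      have e2 : (n0 + 2 * q' + (c q').toNat - n0) % 2 = (c q').toNat := by
        have : (c q').toNat < 2 := by omega
        omega
      refine Or.inr (Or.inl ⟨by omega, by rw [e1]; omega, ⟨q, h1⟩, rfl, by rw [e1]; exact hqq, ?_⟩)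
      rw [e2, ← hc0 ⟨q, h1⟩]
      show ¬ (c q = true ↔ (c q').toNat = 1)
      cases h3 : c q <;> cases h4 : c q' <;> simp_all
  · by_cases h2 : q' < n0
    · right
      unfold ix
      rw [if_neg h1, if_pos h2]
      have e1 : (n0 + 2 * q + (c q).toNat - n0) / 2 = q := by omega
      have e2 : (n0 + 2 * q + (c q).toNat - n0) % 2 = (c q).toNat := by
        have : (c q).toNat < 2 := by omega
        omega
      refine Or.inr (Or.inl ⟨by omega, by rw [e1]; omega, ⟨q', h2⟩, rfl, by rw [e1]; exact hgs,
        ?_⟩)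
      rw [e2, ← hc0 ⟨q', h2⟩]
      show ¬ (c q' = true ↔ (c q).toNat = 1)
      cases h3 : c q <;> cases h4 : c q' <;> simp_all
    · have e1 : (n0 + 2 * q + (c q).toNat - n0) / 2 = q := by omega
      have e2 : (n0 + 2 * q + (c q).toNat - n0) % 2 = (c q).toNat := by
        have : (c q).toNat < 2 := by omega
        omega
      have e3 : (n0 + 2 * q' + (c q').toNat - n0) / 2 = q' := by omega
      have e4 : (n0 + 2 * q' + (c q').toNat - n0) % 2 = (c q').toNat := by
        have : (c q').toNat < 2 := by omega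
        omega
      unfold ix
      rw [if_neg h1, if_neg h2]
      cases h3 : c q
      · have h4 : c q' = true := by
          cases h4 : c q'
          · rw [h3, h4] at hne; exact absurd rfl hne
          · rfl
        left
        rw [h3] at e1 e2
        rw [h4] at e3 e4
        rw [h4]
        refine Or.inr (Or.inr ⟨by omega, by rw [e1]; omega, by omega, by rw [e3]; omega,
          by rw [e1, e3]; exact hqq, by rw [e2]; rfl, by rw [e4]; rfl⟩)
      · have h4 : c q' = false := by
          cases h4 : c q'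
          · rfl
          · rw [h3, h4] at hne; exact absurd rfl hne
        right
        rw [h3] at e1 e2
        rw [h4] at e3 e4
        rw [h4]
        refine Or.inr (Or.inr ⟨by omega, by rw [e3]; omega, by omega, by rw [e1]; omega,
          by rw [e1, e3]; exact hgs, by rw [e4]; rfl, by rw [e2]; rfl⟩)

theorem ix_inj {n0 : ℕ} (c : ℕ → Bool) {q q' : ℕ} (h : ix n0 c q = ix n0 c q') (hne : q ≠ q') :
    False := by
  unfold ix at h
  have t1 := Bool.toNat_le (c q)
  have t2 := Bool.toNat_le (c q')
  split_ifs at h <;> omega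

end WDcAux

open WDcAux in
theorem wret_dc {V : Type} {H : V → V → Prop} {ht : V → ℕ} {cl : V → Bool}
    (hH : ∀ a b, H a b → H b a) (R : V → Prop) {n0 : ℕ} (en : Fin n0 ≃ Core ht) (g : Gr)
    (h : n0 ≤ g.n) (hb : BipOK cl en g)
    (hw : WRet H ht R en (mkG (n0 + 2 * g.n) (relD cl en g))) : WRet H ht R en g := by
  obtain ⟨c, hc, hc0⟩ := hb
  obtain ⟨hn, r', h1, h2, h3⟩ := hw
  have hlt : ∀ q : Fin g.n, ix n0 c q < (mkG (n0 + 2 * g.n) (relD cl en g)).n :=
    fun q => ix_lt c q.2
  refine ⟨h, fun q => r' ⟨ix n0 c q, hlt q⟩, fun a => h1 _, ?_, ?_⟩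
  · intro a b hab
    have hg : GN g a b := (adjN_fin g a b).2 hab
    have hg' : GN g b a := (adjN_fin g b a).2 hab.symm
    refine h2 _ _ ?_
    show (SimpleGraph.fromRel (fun a b : Fin (n0 + 2 * g.n) => relD cl en g a b)).Adj _ _
    rw [SimpleGraph.fromRel_adj]
    refine ⟨fun he => ?_, ix_rel en g c hc hc0 hg hg'⟩
    have he' := congrArg Fin.val he
    have hne : (a : ℕ) ≠ b := fun h4 => hab.ne (Fin.ext h4)
    exact ix_inj c he' hne
  · intro i hi
    have h5 := h3 i hi
    rw [← h5]
    refine congrArg r' (Fin.ext ?_)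
    show ix n0 c (i : ℕ) = i
    unfold ix
    rw [if_pos i.2]

end Pool.Agent.Lib.P2baQ
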