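import Pool.Agent.Lib.P2baQ.BipM
import Pool.Agent.Lib.P2baQ.WDc
import Pool.Agent.Lib.P2baL.PolyBip

/-! The double cover of an instance, as a function which is computable in polynomial time. -/

set_option autoImplicit false

namespace Pool.Agent.Lib.P2baQ

open Pool.Agent.Lib.P2ba8ab Pool.Agent.Lib.P2baR Pool.Agent.Lib.P2baL Pool.Agent.Lib.PolyTime
open Pool.Agent.Lib.Pa7c826 Pool.Agent.Lib.P8e91ed.PT Pool.Agent.P99b9fe

variable {V : Type} {H : V → V → Prop} {par : V → V} {ht : V → ℕ} {cl : V → Bool}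

open Classical in
/-- the double cover, or the graph without vertices -/
noncomputable def dcg (cl : V → Bool) {n0 : ℕ} (en : Fin n0 ≃ Core ht) (g : Gr) : Gr :=
  if n0 ≤ g.n ∧ BipOK cl en g then mkG (n0 + 2 * g.n) (relD cl en g) else mkG 0 (fun _ _ => False)

theorem hedge_of (T : TreesP H par ht) (hcls : ∀ a b, H a b → cl a ≠ cl b)
    (hcore : ∃ v, ht v = 0) {n0 : ℕ} (en : Fin n0 ≃ Core ht) :
    ∃ v w : Fin n0, cl (en v).1 ≠ cl (en w).1 := by
  obtain ⟨v, hv⟩ := hcore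
  obtain ⟨b, hb, hvb⟩ := T.nb v hv
  refine ⟨en.symm ⟨v, hv⟩, en.symm ⟨b, hb⟩, ?_⟩
  rw [Equiv.apply_symm_apply, Equiv.apply_symm_apply]
  exact hcls v b hvb

theorem poly_dcg {n0 : ℕ} (en : Fin n0 ≃ Core ht)
    (hedge : ∃ v w : Fin n0, cl (en v).1 ≠ cl (en w).1) :
    PolyC (fun _ : Gr => True) [Gr.encode] (fun g => (dcg cl en g).encode) := by
  classical
  have hg : PolyC (fun _ : Gr => True) [Gr.encode] (fun g : Gr => g.encode) :=
    PolyC.var (by simp)
  have hP : PolyP (fun _ : Gr => True) [Gr.encode] (fun g => n0 ≤ g.n ∧ BipOK cl en g) := by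
    have h1 : PolyP (fun _ : Gr => True) [Gr.encode] (fun g => n0 ≤ g.n ∧ ∀ a < g.n,
        ¬ tabP (ruleD cl en g a) (2 * g.n) (2 * g.n) (2 * a + 1)) := by
      refine (PolyP.le (PolyN.const n0) (p_n hg)).and (p_fa (p_n hg) (PolyP.not ?_))
      exact poly_tabD cl en (g := fun p : Gr × ℕ => p.1) (cU hg) nL
        (((PolyN.const 2).mul nL).add (PolyN.const 1))
    refine h1.congr (fun g _ => ?_)
    constructor
    · rintro ⟨ha, hb⟩
      exact ⟨ha, (bip_iff cl en hedge g ha).2 hb⟩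
    · rintro ⟨ha, hb⟩
      exact ⟨ha, (bip_iff cl en hedge g ha).1 hb⟩
  have hA : PolyC (fun _ : Gr => True) [Gr.encode]
      (fun g => (mkG (n0 + 2 * g.n) (relD cl en g)).encode) := by
    refine poly_mkG (N := fun g : Gr => n0 + 2 * g.n) (R := fun g => relD cl en g)
      ((PolyN.const n0).add ((PolyN.const 2).mul (p_n hg))) ?_
    intro i j hi hj
    exact PolyBipAux.poly_relD cl en (g := fun p : Gr × ℕ => p.1) (cU hg) hi hj
  have hB : PolyC (fun _ : Gr => True) [Gr.encode]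
      (fun _ => (mkG 0 (fun _ _ => False)).encode) := PolyC.const _
  refine (poly_if hP hA hB).congr (fun g _ => ?_)
  unfold dcg
  by_cases h : n0 ≤ g.n ∧ BipOK cl en g
  · simp only [if_pos h]
  · simp only [if_neg h]

theorem ret_dcg (T : TreesP H par ht) (hcls : ∀ a b, H a b → cl a ≠ cl b)
    (hcore : ∃ v, ht v = 0) {n0 : ℕ} (en : Fin n0 ≃ Core ht) (g : Gr) :
    Ret H ht en g ↔ RetCore H ht cl en (dcg cl en g) := by
  have hn0 : 0 < n0 := by
    obtain ⟨v, _⟩ := hedge_of T hcls hcore en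
    exact lt_of_le_of_lt (Nat.zero_le _) v.2
  rw [ret_iff_dc T hcls hcore en g]
  unfold dcg
  by_cases h : n0 ≤ g.n ∧ BipOK cl en g
  · rw [if_pos h]
    exact ⟨fun h' => h'.2.2, fun h' => ⟨h.1, h.2, h'⟩⟩
  · rw [if_neg h]
    constructor
    · rintro ⟨ha, hb, -⟩
      exact absurd ⟨ha, hb⟩ h
    · rintro ⟨ha, -⟩
      have : n0 ≤ 0 := ha
      omega

theorem wret_dcg (T : TreesP H par ht) (hcls : ∀ a b, H a b → cl a ≠ cl b)
    (hcore : ∃ v, ht v = 0) (R : V → Prop) {n0 : ℕ} (en : Fin n0 ≃ Core ht) (g : Gr)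
    (hw : WRet H ht R en (dcg cl en g)) : WRet H ht R en g := by
  have hn0 : 0 < n0 := by
    obtain ⟨v, _⟩ := hedge_of T hcls hcore en
    exact lt_of_le_of_lt (Nat.zero_le _) v.2
  unfold dcg at hw
  by_cases h : n0 ≤ g.n ∧ BipOK cl en g
  · rw [if_pos h] at hw
    exact wret_dc T.symm R en g h.1 h.2 hw
  · rw [if_neg h] at hw
    obtain ⟨ha, -⟩ := hw
    have : n0 ≤ 0 := ha
    omega

end Pool.Agent.Lib.P2baQ
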