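import Pool.Agent.Lib.P2baL.DefsC

/-!
# Surjective homomorphisms to graphs with pendant trees at marked vertices: definitions

The target graph `H` on `V` (loops allowed) is described by a height function `ht` and a parent
function `par`: the vertices of height 0 form the core, an arbitrary graph; the neighbours of a
vertex of positive height are its parent, its children and perhaps the vertex itself.
-/

set_option autoImplicit false

namespace Pool.Agent.Lib.P2baQ

open Pool.Agent.Lib.P2ba8ab Pool.Agent.Lib.P2baR Pool.Agent.Lib.P2baL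

variable {V : Type}

/-- The vertices of positive height form pendant trees with parent function `par`; loops are
allowed, but the parent of a vertex of positive height with a loop has a loop; every vertex of the
core (height 0) has a neighbour in the core, perhaps itself. -/
structure TreesP (H : V → V → Prop) (par : V → V) (ht : V → ℕ) : Prop where
  symm : ∀ a b, H a b → H b a
  ht_par : ∀ a, 0 < ht a → ht a = ht (par a) + 1
  adj_par : ∀ a, 0 < ht a → H a (par a)
  tree : ∀ a b, H a b → 0 < ht a → b = a ∨ b = par a ∨ (0 < ht b ∧ a = par b)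
  loop : ∀ a, 0 < ht a → H a a → H (par a) (par a)
  nb : ∀ a, ht a = 0 → ∃ b, ht b = 0 ∧ H a b

/-- The marked vertices: the roots of the vertices of height `L`. -/
def Mk (par : V → V) (ht : V → ℕ) (L : ℕ) (v : V) : Prop := ∃ t, ht t = L ∧ root par ht t = v

/-- the data of a target: a class function `cl`, a vertex `v0` of the core which is joined to every
vertex `a` of the core by a walk of length `len (cl a) ≤ e` in the core; there is a tree exactly above
every marked vertex, it has height `L > 2 e` and exactly one vertex of height `L`; there are at least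
two marked vertices -/
structure DatP (H : V → V → Prop) (par : V → V) (ht : V → ℕ) (cl : V → Bool) (v0 : V)
    (len : Bool → ℕ) (e L : ℕ) : Prop where
  trees : TreesP H par ht
  v0c : ht v0 = 0
  len1 : ∀ c, 1 ≤ len c
  lene : ∀ c, len c ≤ e
  walk : ∀ a, ht a = 0 → Walk (HC H ht) (len (cl a)) a v0
  le : ∀ x, ht x ≤ L
  uniq : ∀ x y, ht x = L → ht y = L → root par ht x = root par ht y → x = y
  has : ∀ x, 0 < ht x → Mk par ht L (root par ht x)
  two : ∃ x y, ht x = L ∧ ht y = L ∧ root par ht x ≠ root par ht y
  big : 2 * e < L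

theorem DatP.epos {H : V → V → Prop} {par : V → V} {ht : V → ℕ} {cl : V → Bool} {v0 : V}
    {len : Bool → ℕ} {e L : ℕ} (D : DatP H par ht cl v0 len e L) : 0 < e :=
  lt_of_lt_of_le (D.len1 true) (D.lene true)

/-- a set of core vertices which is connected inside the core and contains the roots of all trees -/
structure KS (H : V → V → Prop) (par : V → V) (ht : V → ℕ) (K : Finset V) : Prop where
  core : ∀ v ∈ K, ht v = 0
  conn : ∀ a ∈ K, ∀ b ∈ K, ∃ n, Walk (In (HC H ht) (↑K : Set V)) n a b
  roots : ∀ x, 0 < ht x → root par ht x ∈ K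

open Classical in
/-- the vertices of height `L` -/
noncomputable def Tops [Fintype V] (ht : V → ℕ) (L : ℕ) : Finset V :=
  Finset.univ.filter (fun x => ht x = L)

open Classical in
/-- the way from `(p, k)` to `ι v0`, without the end -/
noncomputable def way {e : ℕ} {P : Type} [Fintype P] [Fintype V] (ht : V → ℕ) (len : Bool → ℕ)
    (clP : P → Bool) (y : P × Fin e) : Finset (W ht P e) :=
  Finset.univ.filter (fun w => ∃ i : Fin e, w = Sum.inr (y.1, i) ∧
    ((y.2 ≤ i ∧ i.1 < len (clP y.1)) ∨ i = y.2))

open Classical in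
/-- the connected set of vertices of the instance: the copy of `K`, the tree vertices below `Yt`, the
ways from the vertices of `Y2` -/
noncomputable def UK {e : ℕ} {P : Type} [Fintype P] [Fintype V] (par : V → V) (ht : V → ℕ)
    (len : Bool → ℕ) (clP : P → Bool) (ι : Core ht → P) (he : 0 < e) (K : Finset V)
    (Yt : Finset V) (Y2 : Finset (P × Fin e)) : Finset (W ht P e) :=
  Finset.univ.filter (fun w =>
    (∃ v : Core ht, w = Sum.inr (ι v, ⟨0, he⟩) ∧ v.1 ∈ K) ∨
    (∃ z : {x : V // 0 < ht x}, w = Sum.inl z ∧ z.1 ∈ St par ht Yt) ∨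
    (∃ y ∈ Y2, w ∈ way ht len clP y))

/-- The extension problem: the instance is a graph whose first `m` vertices stand for the marked
vertices of the core; the question is whether some homomorphism of the graph to the core maps them
to these vertices. -/
def Ext (H : V → V → Prop) (ht : V → ℕ) {R : V → Prop} {m : ℕ} (em : Fin m ≃ {v : V // R v})
    (g : Gr) : Prop :=
  ∃ h : m ≤ g.n, ∃ r : Fin g.n → V, (∀ a, ht (r a) = 0) ∧
    (∀ a b, g.G.Adj a b → H (r a) (r b)) ∧ ∀ i : Fin m, r (Fin.castLE h i) = (em i).1

/-- weak retractions: only the marked vertices of the core are fixed -/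
def WRet (H : V → V → Prop) (ht : V → ℕ) (R : V → Prop) {n0 : ℕ} (en : Fin n0 ≃ Core ht)
    (g : Gr) : Prop :=
  ∃ h : n0 ≤ g.n, ∃ r : Fin g.n → V, (∀ a, ht (r a) = 0) ∧
    (∀ a b, g.G.Adj a b → H (r a) (r b)) ∧ ∀ i : Fin n0, R (en i).1 → r (Fin.castLE h i) = (en i).1

open Classical in
/-- the vertex which stands for the vertex `q` of the given graph -/
noncomputable def ps {ht : V → ℕ} {R : V → Prop} {n0 m : ℕ} (en : Fin n0 ≃ Core ht)
    (hR : ∀ v, R v → ht v = 0) (em : Fin m ≃ {v : V // R v}) (q : ℕ) : ℕ :=
  if h : q < m then (en.symm ⟨(em ⟨q, h⟩).1, hR _ (em ⟨q, h⟩).2⟩ : ℕ) else n0 + q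

/-- the edges of the given graph together with the core -/
def relG {ht : V → ℕ} {R : V → Prop} {n0 m : ℕ} (H : V → V → Prop) (en : Fin n0 ≃ Core ht)
    (hR : ∀ v, R v → ht v = 0) (em : Fin m ≃ {v : V // R v}) (g : Gr) (i j : ℕ) : Prop :=
  (∃ v w : Fin n0, i = v ∧ j = w ∧ H (en v).1 (en w).1) ∨
  ∃ q < g.n, ∃ q' < g.n, GN g q q' ∧ i = ps en hR em q ∧ j = ps en hR em q'

open Classical in
/-- the given graph together with the core (the graph without vertices if there are too few
vertices) -/
noncomputable def glue {ht : V → ℕ} {R : V → Prop} {n0 m : ℕ} (H : V → V → Prop)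
    (en : Fin n0 ≃ Core ht) (hR : ∀ v, R v → ht v = 0) (em : Fin m ≃ {v : V // R v}) (g : Gr) : Gr :=
  if m ≤ g.n then mkG (n0 + g.n) (relG H en hR em g) else mkG 0 (fun _ _ => False)

end Pool.Agent.Lib.P2baQ
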