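import Pool.Agent.Lib.P2baQ.Forest

/-!
# Module P2baQ.Down: surjective homomorphisms preserve the way down to the root

PROOF. Let g i, 0 ≤ i ≤ L, be the vertex of the instance for par^[i] t: inl (par^[i] t) for i < L
(height L - i > 0, `ht_iter`), and (ι (root t), 0) for i = L (root t = par^[L] t). g i and g (i+1) are
adjacent (`adj_par`; the last edge is the second kind of `Rel`: inl x – (ι v, 0) with v = par x). All
g i are in UK K Tops ∅: tree vertices since Anc (par^[i] t) t and t ∈ Tops; the root by `hK.roots`.
CLAIM: f (g i) = par^[i] (f (inl t)) for i ≤ L. Induction on i; i = 0 clear (use strong induction or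
carry the claim for i - 1). Step i → i + 1 ≤ L: a := par^[i] (f (inl t)) has height L - i > 0
(`htop`, `ht_iter`). f (g (i+1)) is adjacent to a: by `tree` it is a, or par a, or a child c of a
(0 < ht c, a = par c). It is not a = f (g i) by injectivity (g i ≠ g (i+1): different heights /
inl ≠ inr). If it is a child c: c has height L - i + 1; if i = 0 this exceeds L (`D.le`):
contradiction. If i ≥ 1: by `himg` c ∈ St Tops: Anc c t' with ht t' = L; root t' = root c = root a =
root (f (inl t)) (`anc_root`, `root_par`), so t' = f (inl t) by `D.uniq`; Anc c t' gives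
c = par^[j] t' with height L - j = L - i + 1, so j = i - 1 and c = par^[i-1] (f (inl t)) =
f (g (i-1)): contradiction to injectivity (g (i-1) ≠ g (i+1)). So f (g (i+1)) = par a.
For i = L: f (ι (root t), 0) = par^[L] (f (inl t)) = root (f (inl t)) as its height is L.
-/

set_option autoImplicit false
set_option linter.unusedSectionVars false

namespace Pool.Agent.Lib.P2baQ

open Pool.Agent.Lib.P2ba8ab Pool.Agent.Lib.P2baR Pool.Agent.Lib.P2baL

variable {V : Type} {H : V → V → Prop} {par : V → V} {ht : V → ℕ} {cl : V → Bool} {v0 : V}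
  {len : Bool → ℕ} {e L : ℕ} {P : Type}

namespace DownAux

/-- the way down from `t` in the instance -/
noncomputable def g (ht : V → ℕ) (par : V → V) (t : V) (r : W ht P e) (i : ℕ) : W ht P e :=
  if h : 0 < ht (par^[i] t) then Sum.inl ⟨par^[i] t, h⟩ else r

theorem g_lt {t : V} {r : W ht P e} {i : ℕ} (h : 0 < ht (par^[i] t)) :
    g ht par t r i = Sum.inl ⟨par^[i] t, h⟩ := by
  unfold g
  rw [dif_pos h]

theorem g_ge {t : V} {r : W ht P e} {i : ℕ} (h : ht (par^[i] t) = 0) :
    g ht par t r i = r := by
  unfold g
  rw [dif_neg (by omega)]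

end DownAux

theorem down [Fintype P] [Fintype V] (D : DatP H par ht cl v0 len e L) (E : P → P → Prop)
    (clP : P → Bool) (ι : Core ht → P)
    (he : 0 < e) (f : W ht P e → V)
    (hf : ∀ a b, (gr H par ht len e E clP ι (ι ⟨v0, D.v0c⟩)).Adj a b → H (f a) (f b))
    (K : Finset V) (hK : KS H par ht K)
    (hinj : Set.InjOn f (↑(UK par ht len clP ι he K (Tops ht L) ∅) : Set (W ht P e)))
    (himg : ∀ w ∈ UK par ht len clP ι he K (Tops ht L) ∅, 0 < ht (f w) →
      f w ∈ St par ht (Tops ht L))
    (htop : ∀ t : {x : V // 0 < ht x}, ht t.1 = L → ht (f (Sum.inl t)) = L)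
    (t : {x : V // 0 < ht x}) (htL : ht t.1 = L) :
    f (Sum.inr (ι ⟨root par ht t.1, ht_root D.trees t.1⟩, ⟨0, he⟩)) =
      root par ht (f (Sum.inl t)) := by
  have T := D.trees
  set r : W ht P e := Sum.inr (ι ⟨root par ht t.1, ht_root D.trees t.1⟩, ⟨0, he⟩) with hr
  have hit : ∀ i, i ≤ L → ht (par^[i] t.1) = L - i := by
    intro i hi
    rw [ht_iter T t.1 i (by omega), htL]
  have hroot : root par ht t.1 = par^[L] t.1 := by
    unfold root
    rw [htL]
  set g := DownAux.g ht par t.1 r with hg
  have gin : ∀ i, (h : i < L) → g i = Sum.inl ⟨par^[i] t.1, by rw [hit i h.le]; omega⟩ := by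
    intro i h
    exact DownAux.g_lt _
  have gL : g L = r := DownAux.g_ge (by rw [hit L le_rfl]; omega)
  have hL : 0 < L := by
    have := t.2
    omega
  have g0 : g 0 = Sum.inl t := gin 0 hL
  have gne : ∀ i j, i < j → j ≤ L → g i ≠ g j := by
    intro i j hij hj he'
    rcases Nat.lt_or_ge j L with h | h
    · rw [gin i (by omega), gin j h] at he'
      have h1 := Sum.inl.inj he'
      have h2 : par^[i] t.1 = par^[j] t.1 := congrArg Subtype.val h1
      have h3 := hit i (by omega)
      have h4 := hit j (by omega)
      rw [h2] at h3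
      omega
    · have : j = L := by omega
      subst this
      rw [gin i (by omega), gL, hr] at he'
      cases he'
  have gmem : ∀ i, i ≤ L → g i ∈ UK par ht len clP ι he K (Tops ht L) ∅ := by
    intro i hi
    simp only [UK, Finset.mem_filter, Finset.mem_univ, true_and]
    rcases Nat.lt_or_ge i L with h | h
    · right; left
      refine ⟨_, gin i h, ?_⟩
      simp only [St, Finset.mem_filter, Finset.mem_univ, true_and]
      refine ⟨t.1, ?_, i, by omega, rfl⟩
      simp [Tops, htL]
    · have : i = L := by omega
      subst this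
      left
      exact ⟨⟨root par ht t.1, ht_root D.trees t.1⟩, gL, hK.roots t.1 t.2⟩
  have fne : ∀ i j, i < j → j ≤ L → f (g i) ≠ f (g j) := by
    intro i j hij hj h
    exact gne i j hij hj (hinj (gmem i (by omega)) (gmem j hj) h)
  have gadj : ∀ i, i + 1 ≤ L → H (f (g i)) (f (g (i + 1))) := by
    intro i hi
    apply hf
    unfold gr
    rw [SimpleGraph.fromRel_adj]
    refine ⟨gne i (i + 1) (by omega) hi, Or.inl ?_⟩
    have hpos : 0 < ht (par^[i] t.1) := by
      rw [hit i (by omega)]
      omega
    have hstep : par^[i + 1] t.1 = par (par^[i] t.1) := Function.iterate_succ_apply' _ _ _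
    rcases Nat.lt_or_ge (i + 1) L with h | h
    · rw [gin i (by omega), gin (i + 1) h]
      change H (par^[i] t.1) (par^[i + 1] t.1)
      rw [hstep]
      exact T.adj_par _ hpos
    · have h5 : i + 1 = L := by omega
      rw [gin i (by omega), h5, gL, hr]
      refine ⟨rfl, ⟨root par ht t.1, ht_root D.trees t.1⟩, rfl, ?_⟩
      change root par ht t.1 = par (par^[i] t.1)
      rw [hroot, ← hstep, h5]
  set τ := f (Sum.inl t) with hτ
  have hτL : ht τ = L := htop t htL
  have hiτ : ∀ i, i ≤ L → ht (par^[i] τ) = L - i := by
    intro i hi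
    rw [ht_iter T τ i (by omega), hτL]
  have key : ∀ n, n ≤ L → ∀ i, i ≤ n → f (g i) = par^[i] τ := by
    intro n
    induction n with
    | zero =>
      intro _ i hi
      have : i = 0 := by omega
      subst this
      rw [g0]
      rfl
    | succ n ih =>
      intro hn i hi
      rcases Nat.lt_or_ge i (n + 1) with h | h
      · exact ih (by omega) i (by omega)
      have hin : i = n + 1 := by omega
      subst hin
      have h1 := ih (by omega) n le_rfl
      have hstep : par^[n + 1] τ = par (par^[n] τ) := Function.iterate_succ_apply' _ _ _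
      have hadj := gadj n hn
      rw [h1] at hadj
      have hpos : 0 < ht (par^[n] τ) := by
        rw [hiτ n (by omega)]
        omega
      rcases T.tree _ _ hadj hpos with hb | hb | ⟨hb, hab⟩
      · exact absurd (h1.trans hb.symm) (fne n (n + 1) (by omega) hn)
      · rw [hb, hstep]
      · exfalso
        set c := f (g (n + 1)) with hc
        have hcht : ht c = L - n + 1 := by
          rw [T.ht_par c hb, ← hab, hiτ n (by omega)]
        rcases n with _ | n
        · have := D.le c
          omega
        have hcS := himg (g (n + 1 + 1)) (gmem _ hn) hb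
        rw [← hc] at hcS
        simp only [St, Finset.mem_filter, Finset.mem_univ, true_and, Tops] at hcS
        obtain ⟨t', ht', hanc⟩ := hcS
        have hrt : root par ht t' = root par ht τ := by
          rw [← anc_root T hanc, ← root_par T c hb, ← hab]
          apply anc_root T
          exact ⟨n + 1, by omega, rfl⟩
        have htt := D.uniq t' τ ht' hτL hrt
        rw [htt] at hanc
        obtain ⟨j, hj, hjc⟩ := hanc
        have h6 := ht_iter T τ j hj.le
        rw [hjc, hcht] at h6
        have h7 : j = n := by omega
        rw [h7] at hjc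
        have h8 := ih (by omega) n (by omega)
        exact fne n (n + 1 + 1) (by omega) hn (h8.trans hjc)
  have hfin := key L le_rfl L le_rfl
  rw [gL] at hfin
  rw [hfin]
  unfold root
  rw [hτL]

end Pool.Agent.Lib.P2baQ
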