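import Pool.Agent.Lib.P2baQ.Defs
import Pool.Agent.Lib.P2baL.InstA

/-!
# Module P2baQ.Glue: gluing the core to an instance of the extension problem

PROOFS. `gn_lt`, `gn_symm`, `ret_mkG` are in Lib/P2baL/InstA.lean; `adjN_fin`.
`glue_ret`: m ≤ g.n and r : Fin g.n → V are given. Ret of mkG (n0 + g.n) (relG ..) by `ret_mkG` with
r' i = (en i).1 for i < n0, r' i = r (i - n0) for n0 ≤ i < n0 + g.n (and a core vertex otherwise).
Note r' (ps q) = r q for q < g.n: for q < m: ps q = en.symm ⟨(em q).1, _⟩ < n0, r' = (em q).1 = r q;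
otherwise ps q = n0 + q. Edges: core edges: H (en v) (en w) given; GN g q q' : H (r q) (r q').
`glue_wret`: WRet of glue g; if ¬ m ≤ g.n the glued graph has no vertex, but 0 < n0: contradiction.
Let r' be the weak retraction on Fin (n0 + g.n); put r q = r' (ps q) (ps q < n0 + g.n). Adjacent q,
q': relG (ps q) (ps q') of the second kind. If ps q ≠ ps q' they are adjacent in the glued graph and
we are done. If ps q = ps q' (both less than m, q ≠ q' but em injective and en.symm injective, so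
ps is injective on numbers < m; n0 + q is injective; and values < n0 and ≥ n0 differ): so ps is
injective and this does not occur. r (castLE i) = r' (ps i) with ps i = en.symm ⟨(em i).1, _⟩, marked,
so it is (em i).1 by the property of r'.
-/

set_option autoImplicit false

namespace Pool.Agent.Lib.P2baQ

open Pool.Agent.Lib.P2ba8ab Pool.Agent.Lib.P2baR Pool.Agent.Lib.P2baL

namespace GlueAux

variable {V : Type} {ht : V → ℕ} {R : V → Prop} {n0 m : ℕ}

theorem ps_lt (en : Fin n0 ≃ Core ht) (hR : ∀ v, R v → ht v = 0) (em : Fin m ≃ {v : V // R v})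
    {q n : ℕ} (hq : q < n) : ps en hR em q < n0 + n := by
  unfold ps
  split_ifs with h
  · have := (en.symm ⟨(em ⟨q, h⟩).1, hR _ (em ⟨q, h⟩).2⟩).2
    omega
  · omega

theorem ps_inj (en : Fin n0 ≃ Core ht) (hR : ∀ v, R v → ht v = 0) (em : Fin m ≃ {v : V // R v})
    {q q' : ℕ} (h : ps en hR em q = ps en hR em q') : q = q' := by
  unfold ps at h
  split_ifs at h with h1 h2 h2
  · have h3 := en.symm.injective (Fin.ext h)
    have h4 : (em ⟨q, h1⟩).1 = (em ⟨q', h2⟩).1 := Subtype.mk.inj h3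
    have h5 := em.injective (Subtype.ext h4)
    exact congrArg Fin.val h5
  · have := (en.symm ⟨(em ⟨q, h1⟩).1, hR _ (em ⟨q, h1⟩).2⟩).2
    omega
  · have := (en.symm ⟨(em ⟨q', h2⟩).1, hR _ (em ⟨q', h2⟩).2⟩).2
    omega
  · omega

end GlueAux

open GlueAux in
theorem glue_ret {V : Type} {H : V → V → Prop} {ht : V → ℕ} (hH : ∀ a b, H a b → H b a)
    (hcore : ∃ v, ht v = 0) {R : V → Prop} (hR : ∀ v, R v → ht v = 0) {n0 m : ℕ}
    (en : Fin n0 ≃ Core ht) (em : Fin m ≃ {v : V // R v}) (g : Gr) (h : Ext H ht em g) :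
    Ret H ht en (glue H en hR em g) := by
  classical
  obtain ⟨hm, r, h1, h2, h3⟩ := h
  have e0 : glue H en hR em g = mkG (n0 + g.n) (relG H en hR em g) := by
    unfold glue
    rw [if_pos hm]
  rw [e0, ret_mkG hH hcore en (n0 + g.n) (by omega) (relG H en hR em g)]
  obtain ⟨v0, hv0⟩ := hcore
  obtain ⟨r', hr1, hr2, hr3⟩ : ∃ r' : ℕ → V, (∀ i : Fin n0, r' i = (en i).1) ∧
      (∀ q : Fin g.n, r' (n0 + q) = r q) ∧ ∀ a, ht (r' a) = 0 := by
    refine ⟨fun a => if h : a < n0 then (en ⟨a, h⟩).1 else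
      if h' : a - n0 < g.n then r ⟨a - n0, h'⟩ else v0, ?_, ?_, ?_⟩
    · intro i
      beta_reduce
      rw [dif_pos i.2]
    · intro q
      beta_reduce
      have h5 : ¬ (n0 + (q : ℕ) < n0) := by omega
      have h6 : n0 + (q : ℕ) - n0 < g.n := by omega
      rw [dif_neg h5, dif_pos h6]
      congr 1
      apply Fin.ext
      show n0 + (q : ℕ) - n0 = q
      omega
    · intro a
      beta_reduce
      split_ifs with h5 h6
      · exact (en ⟨a, h5⟩).2
      · exact h1 _
      · exact hv0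
  have hps : ∀ q : Fin g.n, r' (ps en hR em q) = r q := by
    intro q
    unfold ps
    split_ifs with h5
    · rw [hr1 (en.symm ⟨(em ⟨q, h5⟩).1, hR _ (em ⟨q, h5⟩).2⟩), Equiv.apply_symm_apply]
      have h6 := h3 ⟨q, h5⟩
      show (em ⟨q, h5⟩).1 = r q
      rw [← h6]
      rfl
    · exact hr2 q
  refine ⟨r', hr3, ?_, hr1⟩
  rintro a b _ _ _ (⟨v, w, rfl, rfl, hvw⟩ | ⟨q, hq, q', hq', hg, rfl, rfl⟩)
  · rw [hr1, hr1]
    exact hvw
  · have h5 := hps ⟨q, hq⟩
    have h6 := hps ⟨q', hq'⟩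
    have h7 : g.G.Adj ⟨q, hq⟩ ⟨q', hq'⟩ := (adjN_fin g ⟨q, hq⟩ ⟨q', hq'⟩).1 hg
    have h8 := h2 _ _ h7
    rw [← h5, ← h6] at h8
    exact h8

open GlueAux in
theorem glue_wret {V : Type} {H : V → V → Prop} {ht : V → ℕ} (hH : ∀ a b, H a b → H b a)
    (hcore : ∃ v, ht v = 0) {R : V → Prop} (hR : ∀ v, R v → ht v = 0) {n0 m : ℕ}
    (en : Fin n0 ≃ Core ht) (em : Fin m ≃ {v : V // R v}) (g : Gr)
    (h : WRet H ht R en (glue H en hR em g)) : Ext H ht em g := by
  classical
  have hn0 : 0 < n0 := by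
    obtain ⟨v0, hv0⟩ := hcore
    exact lt_of_le_of_lt (Nat.zero_le _) (en.symm ⟨v0, hv0⟩).2
  by_cases hm : m ≤ g.n
  · have e0 : glue H en hR em g = mkG (n0 + g.n) (relG H en hR em g) := by
      unfold glue
      rw [if_pos hm]
    rw [e0] at h
    obtain ⟨hn, r', h1, h2, h3⟩ := h
    have hlt : ∀ q : Fin g.n, ps en hR em q < (mkG (n0 + g.n) (relG H en hR em g)).n :=
      fun q => ps_lt en hR em q.2
    refine ⟨hm, fun q => r' ⟨ps en hR em q, hlt q⟩, fun a => h1 _, ?_, ?_⟩
    · intro a b hab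
      have hg : GN g a b := (adjN_fin g a b).2 hab
      refine h2 _ _ ?_
      show (SimpleGraph.fromRel (fun a b : Fin (n0 + g.n) => relG H en hR em g a b)).Adj _ _
      rw [SimpleGraph.fromRel_adj]
      refine ⟨fun he => hab.ne (Fin.ext (ps_inj en hR em (congrArg Fin.val he))), Or.inl ?_⟩
      exact Or.inr ⟨a, a.2, b, b.2, hg, rfl, rfl⟩
    · intro i
      have hR' : R (en (en.symm ⟨(em i).1, hR _ (em i).2⟩)).1 := by
        rw [Equiv.apply_symm_apply]
        exact (em i).2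
      have h5 := h3 (en.symm ⟨(em i).1, hR _ (em i).2⟩) hR'
      rw [Equiv.apply_symm_apply] at h5
      have h5' : r' (Fin.castLE hn (en.symm ⟨(em i).1, hR _ (em i).2⟩)) = (em i).1 := h5
      rw [← h5']
      refine congrArg r' (Fin.ext ?_)
      show ps en hR em (i : ℕ) = (en.symm ⟨(em i).1, hR _ (em i).2⟩ : ℕ)
      unfold ps
      rw [dif_pos i.2]
  · exfalso
    have e0 : glue H en hR em g = mkG 0 (fun _ _ => False) := by
      unfold glue
      rw [if_neg hm]
    rw [e0] at h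
    obtain ⟨hn, -⟩ := h
    have hn' : n0 ≤ 0 := hn
    omega

end Pool.Agent.Lib.P2baQ
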