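import Pool.Agent.Lib.P2baQ.Forest

/-!
# Module P2baL.Fold: folding the trees into the core (loops allowed)

ρ x = root x if the root has a loop or the height of x is even, and a neighbour of the root in the
core otherwise. If the root has no loop then no vertex above it has a loop, so adjacent vertices
above it have heights which differ by one.
-/

set_option autoImplicit false

namespace Pool.Agent.Lib.P2baQ

open Pool.Agent.Lib.P2ba8ab Pool.Agent.Lib.P2baR Pool.Agent.Lib.P2baL

variable {V : Type} {H : V → V → Prop} {par : V → V} {ht : V → ℕ}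

theorem loop_iter (T : TreesP H par ht) {x : V} (hx : H x x) (i : ℕ) (hi : i ≤ ht x) :
    H (par^[i] x) (par^[i] x) := by
  induction i with
  | zero => exact hx
  | succ i ih =>
    rw [Function.iterate_succ_apply']
    refine T.loop _ ?_ (ih (by omega))
    rw [ht_iter T x i (by omega)]
    omega

theorem loop_root (T : TreesP H par ht) {x : V} (hx : H x x) :
    H (root par ht x) (root par ht x) := loop_iter T hx (ht x) le_rfl

theorem exists_fold (T : TreesP H par ht) : ∃ ρ : V → V, (∀ x, ht (ρ x) = 0) ∧
    (∀ x, ht x = 0 → ρ x = x) ∧ (∀ x y, H x y → H (ρ x) (ρ y)) ∧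
    ∀ x, (H (root par ht x) (root par ht x) ∨ Even (ht x)) → ρ x = root par ht x := by
  classical
  have hex : ∀ v, ∃ b, ht v = 0 → ht b = 0 ∧ H v b := by
    intro v
    by_cases hv : ht v = 0
    · obtain ⟨b, hb, hvb⟩ := T.nb v hv
      exact ⟨b, fun _ => ⟨hb, hvb⟩⟩
    · exact ⟨v, fun h => absurd h hv⟩
  choose nb hnb using hex
  obtain ⟨ρ, hρ⟩ : ∃ ρ : V → V, ∀ x, ρ x = if (H (root par ht x) (root par ht x) ∨ Even (ht x))
      then root par ht x else nb (root par ht x) := ⟨_, fun _ => rfl⟩
  have key : ∀ y, 0 < ht y → H (ρ y) (ρ (par y)) := by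
    intro y hy
    have h1 := T.ht_par y hy
    have h2 := root_par T y hy
    have h3 := hnb _ (ht_root T y)
    rw [hρ, hρ, h2]
    by_cases hr : H (root par ht y) (root par ht y)
    · rw [if_pos (Or.inl hr), if_pos (Or.inl hr)]
      exact hr
    · by_cases he : Even (ht y)
      · have h4 : ¬ Even (ht (par y)) := by
          intro h5
          rw [h1, Nat.even_add_one] at he
          exact he h5
        rw [if_pos (Or.inr he), if_neg (by tauto)]
        exact h3.2
      · have h4 : Even (ht (par y)) := by
          rw [h1, Nat.even_add_one, not_not] at he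
          exact he
        rw [if_neg (by tauto), if_pos (Or.inr h4)]
        exact T.symm _ _ h3.2
  have hcore : ∀ x, ht x = 0 → ρ x = x := by
    intro x hx
    rw [hρ, if_pos (Or.inr (by rw [hx]; exact Even.zero)), root_core x hx]
  refine ⟨ρ, ?_, hcore, ?_, ?_⟩
  · intro x
    rw [hρ]
    split_ifs
    · exact ht_root T x
    · exact (hnb _ (ht_root T x)).1
  · intro x y hxy
    rcases Nat.eq_zero_or_pos (ht x) with hx | hx
    · rcases Nat.eq_zero_or_pos (ht y) with hy | hy
      · rw [hcore x hx, hcore y hy]
        exact hxy
      · rcases T.tree y x (T.symm _ _ hxy) hy with h | h | ⟨h, -⟩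
        · rw [h] at hx
          omega
        · rw [h]
          exact T.symm _ _ (key y hy)
        · omega
    · rcases T.tree x y hxy hx with h | h | ⟨h, h'⟩
      · rw [h] at hxy ⊢
        have h1 := loop_root T hxy
        rw [hρ, if_pos (Or.inl h1)]
        exact h1
      · rw [h]
        exact key x hx
      · rw [h']
        exact T.symm _ _ (key y h)
  · intro x hx
    rw [hρ, if_pos hx]

end Pool.Agent.Lib.P2baQ
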