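import Pool.Agent.Lib.P2baL.DefsC
import Pool.Agent.Lib.P2baQ.Fold

/-!
# Module P2baQ.LowR: from a retraction to a surjective homomorphism

PROOF.
`conv_mpr`: define f q := a y with Top q y if Bd q (exists: the set of the y with Low q y is a
nonempty finite set, take one of greatest height, `Set.Finite` / `Finset.exists_max_image`), and r q
otherwise. hom: G q q'. Both bounded: Good.2. q not bounded, q' bounded: Top q' y'; if 0 < ht y'
then Low q (par y') by step (G q' q by symmetry), contradiction; so ht y' = 0 and the third property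
gives H (r q) y'. q bounded, q' not: symmetric with H symmetric. None: second property.
Surjectivity: f (s x) = x, Dm (s x): Low (s x) x (base), Top (s x) y gives Le y x (Good.1) and
ht x ≤ ht y; y = par^[i] x has height ht x - i, so i = 0.
-/

set_option autoImplicit false

namespace Pool.Agent.Lib.P2baQ

open Pool.Agent.Lib.P2ba8ab Pool.Agent.Lib.P2baR Pool.Agent.Lib.P2baL

namespace LowRAux

theorem exists_top {V X : Type} [Finite V] {par : V → V} {ht : V → ℕ} {G : X → X → Prop}
    {s : V → X} {q : X} (h : Bd par ht G s q) : ∃ y, Top par ht G s q y := by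
  classical
  obtain ⟨y0, hy0⟩ := h
  obtain ⟨y, hy, hmax⟩ := Set.exists_max_image {y | Low par ht G s q y} ht (Set.toFinite _)
    ⟨y0, hy0⟩
  exact ⟨y, hy, fun z hz => hmax z hz⟩

theorem ht_iter {V : Type} {H : V → V → Prop} {par : V → V} {ht : V → ℕ}
    (T : TreesP H par ht) (x : V) : ∀ i, i ≤ ht x → ht (par^[i] x) = ht x - i := by
  intro i
  induction i with
  | zero => intro _; simp
  | succ i ih =>
    intro hi
    have h1 := ih (by omega)
    rw [Function.iterate_succ_apply']
    have h2 := T.ht_par (par^[i] x) (by omega)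
    omega

theorem top_eq {V X : Type} {H : V → V → Prop} {par : V → V} {ht : V → ℕ}
    (T : TreesP H par ht) {G : X → X → Prop} {s : V → X} (hgood : Good H par ht G s)
    {x y : V} (h : Top par ht G s (s x) y) : y = x := by
  obtain ⟨i, hi, hiy⟩ := hgood.1 x y h.1
  have h1 := h.2 x (Low.base x)
  have h2 := ht_iter T x i hi
  rw [hiy] at h2
  have h0 : i = 0 := by omega
  subst h0
  exact hiy.symm

end LowRAux

open LowRAux in
theorem conv_mpr {V X : Type} [Finite V] {H : V → V → Prop} {par : V → V} {ht : V → ℕ}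
    (T : TreesP H par ht) (G : X → X → Prop) (hG : ∀ a b, G a b → G b a) (Dm : X → Prop)
    (s : V → X) (hs : ∀ y, Dm (s y)) (hgood : Good H par ht G s) (r : X → V)
    (h1 : ∀ q q', G q q' → ¬ Bd par ht G s q → ¬ Bd par ht G s q' → H (r q) (r q'))
    (h2 : ∀ q q' v, G q q' → ¬ Bd par ht G s q → Low par ht G s q' v → ht v = 0 →
      H (r q) v) :
    ∃ f : X → V, (∀ a b, G a b → H (f a) (f b)) ∧ ∀ y, ∃ a, Dm a ∧ f a = y := by
  classical
  have hex : ∀ q, ∃ y, (Bd par ht G s q → Top par ht G s q y) ∧ (¬ Bd par ht G s q → y = r q) := by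
    intro q
    by_cases hq : Bd par ht G s q
    · obtain ⟨y, hy⟩ := exists_top hq
      exact ⟨y, fun _ => hy, fun h => absurd hq h⟩
    · exact ⟨r q, fun h => absurd h hq, fun _ => rfl⟩
  choose f hf1 hf2 using hex
  have key : ∀ q q', G q q' → ¬ Bd par ht G s q → Bd par ht G s q' → H (f q) (f q') := by
    intro q q' hqq hq hq'
    have hT := hf1 q' hq'
    have h0 : ht (f q') = 0 := by
      by_contra h0
      exact hq ⟨par (f q'), Low.step q q' (f q') hT.1 (Nat.pos_of_ne_zero h0) (hG _ _ hqq)⟩
    rw [hf2 q hq]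
    exact h2 q q' (f q') hqq hq hT.1 h0
  refine ⟨f, ?_, ?_⟩
  · intro a b hab
    by_cases ha : Bd par ht G s a
    · by_cases hb : Bd par ht G s b
      · exact hgood.2 a b hab _ _ (hf1 a ha) (hf1 b hb)
      · exact T.symm _ _ (key b a (hG _ _ hab) hb ha)
    · by_cases hb : Bd par ht G s b
      · exact key a b hab ha hb
      · rw [hf2 a ha, hf2 b hb]
        exact h1 a b hab ha hb
  · intro y
    refine ⟨s y, hs y, ?_⟩
    exact top_eq T hgood (hf1 (s y) ⟨y, Low.base y⟩)

end Pool.Agent.Lib.P2baQ
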