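import Pool.Agent.Lib.P2baQ.Fold
import Pool.Agent.Lib.P2baQ.PolyLow

/-!
# Module P2baQ.PolyInst: the instance of the retraction problem in polynomial time

PROOFS. `poly_bd`: `p_anyF` over V and `poly_low`. `poly_good`: first part: `p_allF` twice, the
proposition Le par ht y x is a constant (`p_const`), `poly_low` at q = s x, `PolyP.imp`. Second part:
(∀ q q', GN q q' → ..) is equivalent to (∀ q < g.n, ∀ q' < g.n, GN q q' → ..) as GN g q q' gives
q, q' < g.n (definition of adjN: unfold GN adjN, split); `p_fa` twice; Top by `poly_low`, `p_allF`,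
`PolyP.and`, `PolyP.imp`, and the constants ht z ≤ ht y, H y y' by `p_const`.
`poly_inst`: `poly_if` with `poly_good`; encode of an if-then-else: `apply_ite`; `poly_mkG` with
`poly_bd`, `poly_low`, `p_gn`, `PolyN.sub`, `PolyP.le`, `p_ex`, `p_anyF` over Fin n0.
-/

set_option autoImplicit false

namespace Pool.Agent.Lib.P2baQ

open Pool.Agent.Lib.P2ba8ab Pool.Agent.Lib.P2baR Pool.Agent.Lib.P2baL Pool.Agent.Lib.PolyTime
open Pool.Agent.Lib.Pa7c826 Pool.Agent.Lib.P8e91ed.PT Pool.Agent.P99b9fe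

variable {V : Type} [Finite V] {H : V → V → Prop} {par : V → V} {ht : V → ℕ}
  {α : Type} {D : α → Prop} {ctx : List (α → List Bool)} {g : α → Gr} {s : α → V → ℕ}

namespace PolyInstAux

theorem poly_bd (T : TreesP H par ht) (hg : PolyC D ctx (fun a => (g a).encode))
    (hs : ∀ y, PolyN D ctx (fun a => s a y)) {q : α → ℕ} (hq : PolyN D ctx q) :
    PolyP D ctx (fun a => Bd par ht (GN (g a)) (s a) (q a)) :=
  p_anyF (fun y => poly_low T y hg hs hq)

theorem poly_top (T : TreesP H par ht) (y : V) (hg : PolyC D ctx (fun a => (g a).encode))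
    (hs : ∀ y, PolyN D ctx (fun a => s a y)) {q : α → ℕ} (hq : PolyN D ctx q) :
    PolyP D ctx (fun a => Top par ht (GN (g a)) (s a) (q a) y) :=
  (poly_low T y hg hs hq).and
    (p_allF (fun z => (poly_low T z hg hs hq).imp (p_const (ht z ≤ ht y))))

theorem gn_lt {g : Gr} {a b : ℕ} (h : GN g a b) : a < g.n ∧ b < g.n := by
  have h' : adjN g a b = true := h
  simp only [adjN] at h'
  by_contra hc
  simp [hc] at h'

theorem poly_rel (T : TreesP H par ht) {n0 : ℕ} (en : Fin n0 ≃ Core ht)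
    (hg : PolyC D ctx (fun a => (g a).encode)) (hs : ∀ y, PolyN D ctx (fun a => s a y))
    {i j : α → ℕ} (hi : PolyN D ctx i) (hj : PolyN D ctx j) :
    PolyP D ctx (fun a => relI par ht en (g a) (s a) (i a) (j a)) := by
  have hn0 : PolyN D ctx (fun _ => n0) := PolyN.const n0
  have hi' : PolyN D ctx (fun a => i a - n0) := PolyN.sub hi hn0
  have hj' : PolyN D ctx (fun a => j a - n0) := PolyN.sub hj hn0
  have hA : PolyP D ctx (fun a => n0 ≤ i a ∧ n0 ≤ j a ∧ GN (g a) (i a - n0) (j a - n0) ∧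
      ¬ Bd par ht (GN (g a)) (s a) (i a - n0) ∧ ¬ Bd par ht (GN (g a)) (s a) (j a - n0)) :=
    (PolyP.le hn0 hi).and ((PolyP.le hn0 hj).and ((p_gn hg hi' hj').and
      ((poly_bd T hg hs hi').not.and (poly_bd T hg hs hj').not)))
  have hB : PolyP D ctx (fun a => n0 ≤ i a ∧ ¬ Bd par ht (GN (g a)) (s a) (i a - n0) ∧
      ∃ q < (g a).n, GN (g a) (i a - n0) q ∧
        ∃ v : Fin n0, j a = v ∧ Low par ht (GN (g a)) (s a) q (en v).1) := by
    refine (PolyP.le hn0 hi).and ((poly_bd T hg hs hi').not.and ?_)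
    refine p_ex (n := fun a => (g a).n) (P := fun a q => GN (g a) (i a - n0) q ∧
        ∃ v : Fin n0, j a = v ∧ Low par ht (GN (g a)) (s a) q (en v).1) (p_n hg) ?_
    refine (p_gn (g := fun p : α × ℕ => g p.1) (i := fun p : α × ℕ => i p.1 - n0)
      (j := fun p : α × ℕ => p.2) (cU hg) (nU hi') nL).and ?_
    refine p_anyF (fun v => ?_)
    refine (PolyP.eq (f := fun p : α × ℕ => j p.1) (g := fun _ : α × ℕ => (v : ℕ)) (nU hj)
      (PolyN.const _)).and ?_
    exact poly_low T (en v).1 (g := fun p : α × ℕ => g p.1) (s := fun p : α × ℕ => s p.1)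
      (q := fun p : α × ℕ => p.2) (cU hg) (fun y => nU (hs y)) nL
  exact hA.or hB

end PolyInstAux

open PolyInstAux

theorem poly_good (T : TreesP H par ht) (hg : PolyC D ctx (fun a => (g a).encode))
    (hs : ∀ y, PolyN D ctx (fun a => s a y)) :
    PolyP D ctx (fun a => Good H par ht (GN (g a)) (s a)) := by
  have h1 : PolyP D ctx (fun a => ∀ x y, Low par ht (GN (g a)) (s a) (s a x) y →
      Le par ht y x) :=
    p_allF (fun x => p_allF (fun y => (poly_low T y hg hs (hs x)).imp (p_const _)))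
  have h2 : PolyP D ctx (fun a => ∀ q < (g a).n, ∀ q' < (g a).n, GN (g a) q q' →
      ∀ y y', Top par ht (GN (g a)) (s a) q y → Top par ht (GN (g a)) (s a) q' y' → H y y') := by
    refine p_fa (n := fun a => (g a).n) (P := fun a q => ∀ q' < (g a).n, GN (g a) q q' →
      ∀ y y', Top par ht (GN (g a)) (s a) q y → Top par ht (GN (g a)) (s a) q' y' → H y y')
      (p_n hg) ?_
    have hg1 := cU (n := fun a => (g a).n) hg
    have hs1 := fun y => nU (n := fun a => (g a).n) (hs y)
    refine p_fa (n := fun p : α × ℕ => (g p.1).n) (P := fun p q' => GN (g p.1) p.2 q' →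
      ∀ y y', Top par ht (GN (g p.1)) (s p.1) p.2 y → Top par ht (GN (g p.1)) (s p.1) q' y' →
        H y y') (p_n (g := fun p : α × ℕ => g p.1) hg1) ?_
    have hg2 := cU (n := fun p : α × ℕ => (g p.1).n) hg1
    have hs2 := fun y => nU (n := fun p : α × ℕ => (g p.1).n) (hs1 y)
    have hq : PolyN (Dx (Dx D (fun a => (g a).n)) (fun p : α × ℕ => (g p.1).n)) (cx (cx ctx))
        (fun p => p.1.2) := nU nL
    refine (p_gn (g := fun p : (α × ℕ) × ℕ => g p.1.1) hg2 hq nL).imp ?_
    refine p_allF (fun y => p_allF (fun y' => ?_))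
    exact (poly_top T y (g := fun p : (α × ℕ) × ℕ => g p.1.1)
      (s := fun p : (α × ℕ) × ℕ => s p.1.1) hg2 hs2 hq).imp
      ((poly_top T y' (g := fun p : (α × ℕ) × ℕ => g p.1.1)
        (s := fun p : (α × ℕ) × ℕ => s p.1.1) hg2 hs2 nL).imp (p_const _))
  refine (h1.and h2).congr (fun a _ => ?_)
  constructor
  · rintro ⟨h, h'⟩
    exact ⟨h, fun q q' hqq => h' q (gn_lt hqq).1 q' (gn_lt hqq).2 hqq⟩
  · rintro ⟨h, h'⟩
    exact ⟨h, fun q _ q' _ hqq => h' q q' hqq⟩

theorem poly_inst (T : TreesP H par ht) {n0 : ℕ} (en : Fin n0 ≃ Core ht)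
    (hg : PolyC D ctx (fun a => (g a).encode)) (hs : ∀ y, PolyN D ctx (fun a => s a y)) :
    PolyC D ctx (fun a => (inst H par ht en (g a) (s a)).encode) := by
  classical
  have hN : PolyN D ctx (fun a => n0 + (g a).n) := (PolyN.const n0).add (p_n hg)
  have h1 : PolyC D ctx (fun a => (mkG (n0 + (g a).n) (relI par ht en (g a) (s a))).encode) := by
    refine poly_mkG (N := fun a => n0 + (g a).n) (R := fun a => relI par ht en (g a) (s a)) hN ?_
    intro i j hi hj
    exact poly_rel T en (g := fun p : α × ℕ => g p.1) (s := fun p : α × ℕ => s p.1) (cU hg)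
      (fun y => nU (hs y)) hi hj
  have h2 : PolyC D ctx (fun _ : α => (mkG 0 (fun _ _ => False)).encode) :=
    poly_mkG (N := fun _ => 0) (R := fun _ _ _ => False) (PolyN.const 0)
      (fun _ _ _ _ => p_const False)
  refine (poly_if (poly_good T hg hs) h1 h2).congr (fun a _ => ?_)
  unfold inst
  rw [apply_ite Gr.encode]

end Pool.Agent.Lib.P2baQ
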