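import Pool.Agent.Lib.P2baQ.Fold
import Pool.Agent.Lib.P2baQ.Inst
import Pool.Agent.Lib.P2baQ.PolyInst
import Pool.Agent.Lib.P2baL.PolyInP

/-!
# Module P2baQ.InPS: surjective colouring is in P if retraction to the core is

PROOF. `inP_surj`: let N = Nat.card V, eV : V ≃ Fin N. V is nonempty. By `inst_iff`: SurjHom g.G H iff
∃ i < g.n ^ N, ( ∀ y, dig y < g.n) ∧ Ret (inst g dig), dig y = i / g.n ^ (eV y) % g.n: the functions
s : V → ℕ with values < g.n are given by their digits, `finFunctionFinEquiv`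
(finFunctionFinEquiv.symm i j = i / n ^ j % n; `finFunctionFinEquiv_apply`, or
`Nat.ofDigits`). PolyN of g.n ^ k for constant k: induction on k with `PolyN.mul`; `n_div`, `n_mod`,
`p_ex`, `p_allF`, `PolyP.lt`, `poly_inst` in the extended context, `poly_inP`; then `inP_of_poly`.
-/

set_option autoImplicit false

namespace Pool.Agent.Lib.P2baQ

open Pool.Agent.Lib.P2ba8ab Pool.Agent.Lib.P2baR Pool.Agent.Lib.P2baL Pool.Agent.Lib.PolyTime
open Pool.Agent.Lib.Pa7c826 Pool.Agent.Lib.P8e91ed.PT Pool.Agent.P99b9fe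

theorem inP_surj {V : Type} [Finite V] {H : V → V → Prop} {par : V → V} {ht : V → ℕ}
    (T : TreesP H par ht) (hcore : ∃ v, ht v = 0) {n0 : ℕ} (en : Fin n0 ≃ Core ht)
    (h : InP (Ret H ht en)) : InP (fun g => SurjHom g.G H) := by
  obtain ⟨N, ⟨e⟩⟩ := Finite.exists_equiv_fin V
  refine inP_of_poly (P := fun g => SurjHom g.G H) ?_
  have hg0 : PolyC (fun _ : Gr => True) [Gr.encode] (fun g => g.encode) :=
    PolyC.var (by simp)
  have hn : PolyN (fun _ : Gr => True) [Gr.encode] (fun g => g.n) := p_n hg0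
  refine (p_ex (P := fun (g : Gr) i => (∀ y : V, i / g.n ^ (e y : ℕ) % g.n < g.n) ∧
      Ret H ht en (inst H par ht en g (fun y => i / g.n ^ (e y : ℕ) % g.n)))
      (PolyN.pow hn N) (PolyP.and ?_ ?_)).congr (fun g _ => ?_)
  · refine p_allF fun y => PolyP.lt (n_mod (n_div nL (PolyN.pow (nU hn) _)) (nU hn)) (nU hn)
  · refine poly_inP h (poly_inst T en (cU hg0) (fun y => ?_))
    exact n_mod (n_div nL (PolyN.pow (nU hn) _)) (nU hn)
  · rw [inst_iff T hcore en g]
    constructor
    · rintro ⟨i, _, h1, h2⟩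
      exact ⟨_, h1, h2⟩
    · rintro ⟨s, h1, h2⟩
      let f : Fin N → Fin g.n := fun j => ⟨s (e.symm j), h1 _⟩
      have hf : (fun y : V => (finFunctionFinEquiv f : ℕ) / g.n ^ (e y : ℕ) % g.n) = s := by
        funext y
        have h3 : (finFunctionFinEquiv.symm (finFunctionFinEquiv f)) (e y) = f (e y) := by
          rw [Equiv.symm_apply_apply]
        have h4 := congrArg Fin.val h3
        have h5 : ((f (e y) : Fin g.n) : ℕ) = s y := by simp [f]
        rw [h5] at h4
        rw [← h4]
        rfl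
      refine ⟨(finFunctionFinEquiv f : ℕ), (finFunctionFinEquiv f).2, ?_, ?_⟩
      · intro y
        have := congrFun hf y
        beta_reduce at this
        rw [this]
        exact h1 y
      · rw [hf]
        exact h2

end Pool.Agent.Lib.P2baQ
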