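import Pool.Agent.Lib.P2baQ.Defs
import Pool.Agent.Lib.P2baL.MkG

/-!
# Module P2baQ.PolyGlue: gluing the core in polynomial time

PROOF. encode of an if-then-else: `apply_ite`; `poly_if` with `PolyP.le` (m ≤ g.n: `p_n`); `poly_mkG`
for both graphs; relG: first part: `p_anyF` over Fin n0 twice, `PolyP.eq` with constants, `p_const`;
second part: `p_ex` twice with bound g.n, `p_gn`, and i = ps q: the function q ↦ ps q is PolyN:
`n_ite`/`poly_if` with q < m and finitely many cases (or: i = ps q is equivalent to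
(∃ k : Fin m, q = k ∧ i = const k) ∨ (m ≤ q ∧ i = n0 + q), which is PolyP by `p_anyF`, `PolyP.eq`,
`PolyP.le`). (Lib/P99b9fe/PolyFin.lean, Lib/P8e91ed/PolyBin.lean, Lib/P2baL/MkG.lean.)
-/

set_option autoImplicit false

namespace Pool.Agent.Lib.P2baQ

open Pool.Agent.Lib.P2ba8ab Pool.Agent.Lib.P2baR Pool.Agent.Lib.P2baL Pool.Agent.Lib.PolyTime
open Pool.Agent.Lib.Pa7c826 Pool.Agent.Lib.P8e91ed.PT Pool.Agent.P99b9fe

namespace PolyGlueAux

variable {V : Type} {ht : V → ℕ} {R : V → Prop} {n0 m : ℕ}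

theorem eq_ps (hR : ∀ v, R v → ht v = 0) (en : Fin n0 ≃ Core ht) (em : Fin m ≃ {v : V // R v})
    (i q : ℕ) : i = ps en hR em q ↔
      (∃ k : Fin m, q = (k : ℕ) ∧ i = (en.symm ⟨(em k).1, hR _ (em k).2⟩ : ℕ)) ∨
        (m ≤ q ∧ i = n0 + q) := by
  by_cases h : q < m
  · rw [ps, dif_pos h]
    constructor
    · intro h1
      exact Or.inl ⟨⟨q, h⟩, rfl, h1⟩
    · rintro (⟨k, h1, h2⟩ | ⟨h1, -⟩)
      · subst h1
        exact h2
      · exact absurd h1 (by omega)
  · rw [ps, dif_neg h]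
    constructor
    · intro h1
      exact Or.inr ⟨by omega, h1⟩
    · rintro (⟨k, h1, -⟩ | ⟨-, h1⟩)
      · exact absurd k.2 (by omega)
      · exact h1

theorem p_ps {α : Type} {D : α → Prop} {ctx : List (α → List Bool)}
    (hR : ∀ v, R v → ht v = 0) (en : Fin n0 ≃ Core ht) (em : Fin m ≃ {v : V // R v})
    {i q : α → ℕ} (hi : PolyN D ctx i) (hq : PolyN D ctx q) :
    PolyP D ctx (fun a => i a = ps en hR em (q a)) := by
  have h1 : PolyP D ctx (fun a => ∃ k : Fin m, q a = (k : ℕ) ∧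
      i a = (en.symm ⟨(em k).1, hR _ (em k).2⟩ : ℕ)) :=
    p_anyF (P := fun a (k : Fin m) => q a = (k : ℕ) ∧
      i a = (en.symm ⟨(em k).1, hR _ (em k).2⟩ : ℕ))
      (fun k => (PolyP.eq hq (PolyN.const _)).and (PolyP.eq hi (PolyN.const _)))
  have h2 : PolyP D ctx (fun a => m ≤ q a ∧ i a = n0 + q a) :=
    (PolyP.le (PolyN.const m) hq).and (PolyP.eq hi ((PolyN.const n0).add hq))
  exact (h1.or h2).congr (fun a _ => (eq_ps hR en em (i a) (q a)).symm)

end PolyGlueAux

open PolyGlueAux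

theorem poly_glue {V : Type} {H : V → V → Prop} {ht : V → ℕ} {R : V → Prop}
    (hR : ∀ v, R v → ht v = 0) {n0 m : ℕ} (en : Fin n0 ≃ Core ht) (em : Fin m ≃ {v : V // R v}) :
    PolyC (fun _ : Gr => True) [Gr.encode] (fun g => (glue H en hR em g).encode) := by
  classical
  have hg : PolyC (fun _ : Gr => True) [Gr.encode] (fun g : Gr => g.encode) :=
    PolyC.var (by simp)
  have hn : PolyN (fun _ : Gr => True) [Gr.encode] (fun g : Gr => g.n) := p_n hg
  have hP : PolyP (fun _ : Gr => True) [Gr.encode] (fun g : Gr => m ≤ g.n) :=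
    PolyP.le (PolyN.const m) hn
  have hA : PolyC (fun _ : Gr => True) [Gr.encode]
      (fun g : Gr => (mkG (n0 + g.n) (relG H en hR em g)).encode) := by
    refine poly_mkG (N := fun g : Gr => n0 + g.n) (R := fun g => relG H en hR em g)
      ((PolyN.const n0).add hn) (fun i j hi hj => ?_)
    refine PolyP.or ?_ ?_
    · refine p_anyF (P := fun (p : Gr × ℕ) (v : Fin n0) => ∃ w : Fin n0, i p = v ∧ j p = w ∧
        H (en v).1 (en w).1) (fun v => ?_)
      refine p_anyF (P := fun (p : Gr × ℕ) (w : Fin n0) => i p = v ∧ j p = w ∧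
        H (en v).1 (en w).1) (fun w => ?_)
      exact (PolyP.eq hi (PolyN.const _)).and ((PolyP.eq hj (PolyN.const _)).and (p_const _))
    · refine p_ex (P := fun (p : Gr × ℕ) q => ∃ q' < p.1.n, GN p.1 q q' ∧
        i p = ps en hR em q ∧ j p = ps en hR em q') (nU hn) ?_
      refine p_ex (P := fun (p : (Gr × ℕ) × ℕ) q' => GN p.1.1 p.2 q' ∧
        i p.1 = ps en hR em p.2 ∧ j p.1 = ps en hR em q') (nU (nU hn)) ?_
      exact (p_gn (g := fun p : ((Gr × ℕ) × ℕ) × ℕ => p.1.1.1) (cU (cU (cU hg))) (nU nL) nL).and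
        ((p_ps hR en em (nU (nU hi)) (nU nL)).and (p_ps hR en em (nU (nU hj)) nL))
  have hB : PolyC (fun _ : Gr => True) [Gr.encode]
      (fun _ : Gr => (mkG 0 (fun _ _ => False)).encode) := PolyC.const _
  refine (poly_if hP hA hB).congr (fun g _ => ?_)
  rw [glue]
  by_cases h : m ≤ g.n
  · rw [if_pos h, if_pos h]
  · rw [if_neg h, if_neg h]

end Pool.Agent.Lib.P2baQ
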