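import Pool.Agent.Lib.P2baQ.Fwd
import Pool.Agent.Lib.P2baQ.DcG
import Pool.Agent.Lib.P2baQ.Glue
import Pool.Agent.Lib.P2baQ.PolyGlue
import Pool.Agent.Lib.P2baQ.InPS

/-! Extension problems and surjective colouring: the final statements. -/

set_option autoImplicit false

namespace Pool.Agent.Lib.P2baQ

open Pool.Agent.Lib.P2ba8ab Pool.Agent.Lib.P2baR Pool.Agent.Lib.P2baL Pool.Agent.Lib.PolyTime

/-- reducibility by stack programs -/
def PRed (P Q : Gr → Prop) : Prop :=
  ∃ f : Gr → Gr, PolyC (fun _ : Gr => True) [Gr.encode] (fun g => (f g).encode) ∧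
    ∀ g, P g ↔ Q (f g)

theorem PRed.toReduces {P Q : Gr → Prop} (h : PRed P Q) : Reduces P Q := by
  obtain ⟨f, h1, h2⟩ := h
  obtain ⟨⟨tm, time, hout⟩⟩ := PolyC.toTM2 Gr.encode (D := fun _ => True) f Gr.encode h1
  exact ⟨f, ⟨⟨tm, time, fun g => hout ⟨g, trivial⟩⟩⟩, h2⟩

theorem polyC_comp {f f' : Gr → Gr}
    (h1 : PolyC (fun _ : Gr => True) [Gr.encode] (fun g => (f g).encode))
    (h3 : PolyC (fun _ : Gr => True) [Gr.encode] (fun g => (f' g).encode)) :
    PolyC (fun _ : Gr => True) [Gr.encode] (fun g => (f' (f g)).encode) := by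
  have h5 := PolyC.reindex (D' := fun _ : Gr => True) h3 f (fun _ _ => trivial)
  refine h5.comp ?_
  intro u hu
  simp only [List.map_cons, List.map_nil, List.mem_singleton] at hu
  subst hu
  exact h1

theorem PRed.trans {P Q R : Gr → Prop} (h : PRed P Q) (h' : PRed Q R) : PRed P R := by
  obtain ⟨f, h1, h2⟩ := h
  obtain ⟨f', h3, h4⟩ := h'
  exact ⟨fun g => f' (f g), polyC_comp h1 h3, fun g => (h2 g).trans (h4 (f g))⟩

theorem PRed.inP {P Q : Gr → Prop} (h : PRed P Q) (h' : InP Q) : InP P := by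
  obtain ⟨f, h1, h2⟩ := h
  exact inP_of_poly ((poly_inP h' h1).congr (fun g _ => (h2 g).symm))

variable {V : Type} {H : V → V → Prop} {par : V → V} {ht : V → ℕ} {cl : V → Bool} {v0 : V}
  {len : Bool → ℕ} {e L : ℕ}

theorem mk_core (T : TreesP H par ht) (v : V) (h : Mk par ht L v) : ht v = 0 := by
  obtain ⟨t, -, rfl⟩ := h
  exact ht_root T t

theorem hloop_bip (hcls : ∀ a b, H a b → cl a ≠ cl b) : HLoop H par ht L :=
  fun _ _ _ _ _ hv => absurd rfl (hcls _ _ hv)

theorem ext_bip [Finite V] (D : DatP H par ht cl v0 len e L)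
    (hcls : ∀ a b, H a b → cl a ≠ cl b) {m : ℕ} (em : Fin m ≃ {v : V // Mk par ht L v}) :
    PRed (Ext H ht em) (fun g => SurjHom g.G H) := by
  have hcore : ∃ v, ht v = 0 := ⟨v0, D.v0c⟩
  obtain ⟨n0, ⟨en'⟩⟩ := Finite.exists_equiv_fin (Core ht)
  set en := en'.symm
  obtain ⟨c0, ⟨e0⟩⟩ := Finite.exists_equiv_fin {x : V // 0 < ht x}
  refine ⟨fun g => redR H par ht cl ⟨v0, D.v0c⟩ len e en e0.symm
    (dcg cl en (glue H en (mk_core D.trees) em g)), ?_, fun g => ?_⟩
  · exact polyC_comp (polyC_comp (poly_glue (mk_core D.trees) en em)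
      (poly_dcg en (hedge_of D.trees hcls hcore en)))
      (poly_redR H par cl ⟨v0, D.v0c⟩ len e en e0.symm)
  · constructor
    · intro h
      exact ret_surj_bip D hcls en e0.symm _ ((ret_dcg D.trees hcls hcore en _).1
        (glue_ret D.trees.symm hcore (mk_core D.trees) en em g h))
    · intro h
      exact glue_wret D.trees.symm hcore (mk_core D.trees) en em g
        (wret_dcg D.trees hcls hcore _ en _ (surj_WRet D (hloop_bip hcls) en e0.symm _ h))

theorem ext_loop [Finite V] (D : DatP H par ht cl v0 (fun _ => e) e L)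
    (hloop : HLoop H par ht L) {m : ℕ} (em : Fin m ≃ {v : V // Mk par ht L v}) :
    PRed (Ext H ht em) (fun g => SurjHom g.G H) := by
  have hcore : ∃ v, ht v = 0 := ⟨v0, D.v0c⟩
  obtain ⟨n0, ⟨en'⟩⟩ := Finite.exists_equiv_fin (Core ht)
  set en := en'.symm
  obtain ⟨c0, ⟨e0⟩⟩ := Finite.exists_equiv_fin {x : V // 0 < ht x}
  refine ⟨fun g => redR H par ht cl ⟨v0, D.v0c⟩ (fun _ => e) e en e0.symm
    (glue H en (mk_core D.trees) em g), ?_, fun g => ?_⟩
  · exact polyC_comp (poly_glue (mk_core D.trees) en em)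
      (poly_redR H par cl ⟨v0, D.v0c⟩ (fun _ => e) e en e0.symm)
  · constructor
    · intro h
      exact ret_surj_loop D en e0.symm _
        (glue_ret D.trees.symm hcore (mk_core D.trees) en em g h)
    · intro h
      exact glue_wret D.trees.symm hcore (mk_core D.trees) en em g
        (surj_WRet D hloop en e0.symm _ h)

theorem pin_bip [Finite V] (D : DatP H par ht cl v0 len e L)
    (hcls : ∀ a b, H a b → cl a ≠ cl b) (hpin : Pins H par ht L) {n0 : ℕ}
    (en : Fin n0 ≃ Core ht) : PRed (Ret H ht en) (fun g => SurjHom g.G H) := by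
  have hcore : ∃ v, ht v = 0 := ⟨v0, D.v0c⟩
  obtain ⟨c0, ⟨e0⟩⟩ := Finite.exists_equiv_fin {x : V // 0 < ht x}
  refine ⟨fun g => redR H par ht cl ⟨v0, D.v0c⟩ len e en e0.symm (dcg cl en g), ?_,
    fun g => ?_⟩
  · exact polyC_comp (poly_dcg en (hedge_of D.trees hcls hcore en))
      (poly_redR H par cl ⟨v0, D.v0c⟩ len e en e0.symm)
  · rw [ret_dcg D.trees hcls hcore en g]
    constructor
    · intro h
      exact ret_surj_bip D hcls en e0.symm _ h
    · intro h
      obtain ⟨h1, r, h2, h3, h4⟩ := surj_Ret D (hloop_bip hcls) hpin en e0.symm _ h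
      exact ⟨h1, surj_cls D hcls en e0.symm _ h1 h, r, h2, h3, h4⟩

theorem pin_loop [Finite V] (D : DatP H par ht cl v0 (fun _ => e) e L)
    (hloop : HLoop H par ht L) (hpin : Pins H par ht L) {n0 : ℕ}
    (en : Fin n0 ≃ Core ht) : PRed (Ret H ht en) (fun g => SurjHom g.G H) := by
  obtain ⟨c0, ⟨e0⟩⟩ := Finite.exists_equiv_fin {x : V // 0 < ht x}
  refine ⟨fun g => redR H par ht cl ⟨v0, D.v0c⟩ (fun _ => e) e en e0.symm g, ?_, fun g => ?_⟩
  · exact poly_redR H par cl ⟨v0, D.v0c⟩ (fun _ => e) e en e0.symm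
  · constructor
    · intro h
      exact ret_surj_loop D en e0.symm _ h
    · intro h
      exact surj_Ret D hloop hpin en e0.symm _ h

end Pool.Agent.Lib.P2baQ
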