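import Pool.Agent.Lib.P2baQ.Sound
import Pool.Agent.Lib.P2baQ.Compl
import Pool.Agent.Lib.P2baQ.Cls

/-! The reduction for graphs with long pendant trees at marked vertices. -/

set_option autoImplicit false

namespace Pool.Agent.Lib.P2baQ

open Pool.Agent.Lib.P2ba8ab Pool.Agent.Lib.PolyTime Pool.Agent.Lib.Pa7c826 P2baC
open Pool.Agent.Lib.P2baR Pool.Agent.Lib.P2baL

variable {V : Type} {H : V → V → Prop} {par : V → V} {ht : V → ℕ} {cl : V → Bool} {v0 : V}
  {len : Bool → ℕ} {e L : ℕ}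

theorem emb_inj {n0 n : ℕ} (en : Fin n0 ≃ Core ht) (h : n0 ≤ n) :
    Function.Injective (emb en h) := by
  intro v w hvw
  have h1 := Fin.castLE_injective h hvw
  exact en.symm.injective h1

theorem col_emb {n0 n : ℕ} (en : Fin n0 ≃ Core ht) (h : n0 ≤ n) (v : Core ht) :
    col cl en (emb en h v : Fin n) = cl v.1 := by
  unfold col emb
  have h1 : ((Fin.castLE h (en.symm v) : Fin n) : ℕ) < n0 := (en.symm v).2
  rw [dif_pos h1]
  have h2 : (⟨((Fin.castLE h (en.symm v) : Fin n) : ℕ), h1⟩ : Fin n0) = en.symm v := Fin.ext rfl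
  rw [h2, Equiv.apply_symm_apply]

theorem DatP.Lpos (D : DatP H par ht cl v0 len e L) : 0 < L := by
  have := D.big
  have := D.epos
  omega

theorem not_surj (D : DatP H par ht cl v0 len e L) {n0 c0 : ℕ} (en : Fin n0 ≃ Core ht)
    (e0 : Fin c0 ≃ {x : V // 0 < ht x}) (g : Gr) (h : ¬ n0 ≤ g.n) :
    ¬ SurjHom (redR H par ht cl ⟨v0, D.v0c⟩ len e en e0 g).G H := by
  rw [TableRAux.redR_G' H par cl ⟨v0, D.v0c⟩ len e en e0 g h]
  rintro ⟨f, h1, h2⟩
  obtain ⟨x, y, hx, hy, hxy⟩ := D.two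
  have hL := D.Lpos
  obtain ⟨i, hi⟩ := h2 x
  obtain ⟨j, hj⟩ := h2 y
  have hij : i ≠ j := by
    rintro rfl
    rw [hi] at hj
    rw [hj] at hxy
    exact hxy rfl
  have h3 := h1 i j (by simpa using hij)
  rw [hi, hj] at h3
  rcases D.trees.tree x y h3 (by omega) with h4 | h4 | ⟨h4, h5⟩
  · exact hxy (by rw [h4])
  · have h5 := D.trees.ht_par x (by omega)
    rw [← h4] at h5
    omega
  · have h6 := D.trees.ht_par y (by omega)
    rw [← h5] at h6
    omega

/-- the hypothesis on the loops of the core -/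
def HLoop (H : V → V → Prop) (par : V → V) (ht : V → ℕ) (L : ℕ) : Prop :=
  ∀ φ : Core ht → Core ht,
    (∀ v w : Core ht, v ≠ w → H v.1 w.1 → H (φ v).1 (φ w).1) →
    (∀ v : Core ht, Mk par ht L v.1 → Mk par ht L (φ v).1) →
    (∀ v w : Core ht, Mk par ht L v.1 → Mk par ht L w.1 → φ v = φ w → v = w) →
    ∀ v : Core ht, H v.1 v.1 → H (φ v).1 (φ v).1

theorem surj_wret [Finite V] (D : DatP H par ht cl v0 len e L) (hloop : HLoop H par ht L)
    {n0 c0 : ℕ} (en : Fin n0 ≃ Core ht) (e0 : Fin c0 ≃ {x : V // 0 < ht x}) (g : Gr)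
    (hs : SurjHom (redR H par ht cl ⟨v0, D.v0c⟩ len e en e0 g).G H) :
    ∃ h : n0 ≤ g.n, ∃ r : Fin g.n → V, (∀ a, ht (r a) = 0) ∧
      (∀ a b, g.G.Adj a b → H (r a) (r b)) ∧
      (∀ v w : Core ht, v ≠ w → H v.1 w.1 → H (r (emb en h v)) (r (emb en h w))) ∧
      ∀ v : Core ht, Mk par ht L v.1 → r (emb en h v) = v.1 := by
  have := Fintype.ofFinite V
  by_cases h : n0 ≤ g.n
  · rw [surj_redR _ _ _ _ _ _ _ _ _ h] at hs
    obtain ⟨r, h2, h3, h4, h5⟩ := sound D hloop (fun a b : Fin g.n => g.G.Adj a b)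
      (fun a => g.G.loopless.irrefl a) (fun a => col cl en a) (emb en h) (emb_inj en h) hs
    exact ⟨h, r, h2, h3, h4, h5⟩
  · exact absurd hs (not_surj D en e0 g h)

theorem surj_cls (D : DatP H par ht cl v0 len e L) (hcls : ∀ a b, H a b → cl a ≠ cl b)
    {n0 c0 : ℕ} (en : Fin n0 ≃ Core ht) (e0 : Fin c0 ≃ {x : V // 0 < ht x}) (g : Gr)
    (h : n0 ≤ g.n) (hs : SurjHom (redR H par ht cl ⟨v0, D.v0c⟩ len e en e0 g).G H) :
    ∀ a b, g.G.Adj a b → col cl en a ≠ col cl en b := by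
  rw [surj_redR _ _ _ _ _ _ _ _ _ h] at hs
  exact sound_cls D hcls (fun a b : Fin g.n => g.G.Adj a b)
    (fun a => g.G.loopless.irrefl a) (fun a => col cl en a) (emb en h)
    (fun v => col_emb en h v) hs

theorem ret_surj_bip (D : DatP H par ht cl v0 len e L) (hcls : ∀ a b, H a b → cl a ≠ cl b)
    {n0 c0 : ℕ} (en : Fin n0 ≃ Core ht) (e0 : Fin c0 ≃ {x : V // 0 < ht x}) (g : Gr)
    (hr : RetCore H ht cl en g) :
    SurjHom (redR H par ht cl ⟨v0, D.v0c⟩ len e en e0 g).G H := by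
  obtain ⟨h, h1, r, h2, h3, h4⟩ := hr
  rw [surj_redR _ _ _ _ _ _ _ _ _ h]
  have h5 : ∀ v, r (emb en h v) = v.1 := by
    intro v
    have h5 := h4 (en.symm v)
    rw [Equiv.apply_symm_apply] at h5
    exact h5
  obtain ⟨r', h6, h7, h8, h9⟩ := fix_classes D.trees hcls v0 D.v0c
    (fun a b : Fin g.n => g.G.Adj a b) (fun a => col cl en a) (emb en h)
    (fun v => col_emb en h v) h1 r h2 h3 h5
  refine compl D (fun a b : Fin g.n => g.G.Adj a b) (fun a => col cl en a) (emb en h) r' ?_ h7 h8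
  intro p
  rw [← h9 p]
  exact D.walk _ (h6 p)

theorem ret_surj_loop (D : DatP H par ht cl v0 (fun _ => e) e L)
    {n0 c0 : ℕ} (en : Fin n0 ≃ Core ht) (e0 : Fin c0 ≃ {x : V // 0 < ht x}) (g : Gr)
    (hr : Ret H ht en g) :
    SurjHom (redR H par ht cl ⟨v0, D.v0c⟩ (fun _ => e) e en e0 g).G H := by
  obtain ⟨h, r, h2, h3, h4⟩ := hr
  rw [surj_redR _ _ _ _ _ _ _ _ _ h]
  have h5 : ∀ v, r (emb en h v) = v.1 := by
    intro v
    have h5 := h4 (en.symm v)
    rw [Equiv.apply_symm_apply] at h5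
    exact h5
  refine compl D (fun a b : Fin g.n => g.G.Adj a b) (fun a => col cl en a) (emb en h) r ?_ h3 h5
  intro p
  exact D.walk _ (h2 p)

theorem surj_WRet [Finite V] (D : DatP H par ht cl v0 len e L) (hloop : HLoop H par ht L)
    {n0 c0 : ℕ} (en : Fin n0 ≃ Core ht) (e0 : Fin c0 ≃ {x : V // 0 < ht x}) (g : Gr)
    (hs : SurjHom (redR H par ht cl ⟨v0, D.v0c⟩ len e en e0 g).G H) :
    WRet H ht (Mk par ht L) en g := by
  obtain ⟨h, r, h2, h3, -, h5⟩ := surj_wret D hloop en e0 g hs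
  refine ⟨h, r, h2, h3, fun i hi => ?_⟩
  have h6 := h5 (en i) hi
  unfold emb at h6
  rw [Equiv.symm_apply_apply] at h6
  exact h6

/-- the marked vertices pin the core -/
def Pins (H : V → V → Prop) (par : V → V) (ht : V → ℕ) (L : ℕ) : Prop :=
  ∀ φ : Core ht → Core ht, (∀ v w : Core ht, H v.1 w.1 → H (φ v).1 (φ w).1) →
    (∀ v : Core ht, Mk par ht L v.1 → φ v = v) → Function.Injective φ

theorem surj_Ret [Finite V] (D : DatP H par ht cl v0 len e L) (hloop : HLoop H par ht L)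
    (hpin : Pins H par ht L)
    {n0 c0 : ℕ} (en : Fin n0 ≃ Core ht) (e0 : Fin c0 ≃ {x : V // 0 < ht x}) (g : Gr)
    (hs : SurjHom (redR H par ht cl ⟨v0, D.v0c⟩ len e en e0 g).G H) :
    Ret H ht en g := by
  obtain ⟨h, r, h2, h3, h4, h5⟩ := surj_wret D hloop en e0 g hs
  let φ : Core ht → Core ht := fun v => ⟨r (emb en h v), h2 _⟩
  have hfix : ∀ v : Core ht, Mk par ht L v.1 → φ v = v := fun v hv => Subtype.ext (h5 v hv)
  have hl := hloop φ h4 (fun v hv => by rw [hfix v hv]; exact hv)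
    (fun v w hv hw hvw => by rwa [hfix v hv, hfix w hw] at hvw)
  have hφ : ∀ v w : Core ht, H v.1 w.1 → H (φ v).1 (φ w).1 := by
    intro v w hvw
    by_cases hne : v = w
    · subst hne
      exact hl v hvw
    · exact h4 v w hne hvw
  have hinj := hpin φ hφ hfix
  let α : Core ht ≃ Core ht := Equiv.ofBijective φ (Finite.injective_iff_bijective.1 hinj)
  have hα := inv_hom (fun v w : Core ht => H v.1 w.1) α hφ
  refine ⟨h, fun p => (α.symm ⟨r p, h2 p⟩).1, fun p => (α.symm _).2,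
    fun a b hab => hα _ _ (h3 a b hab), fun i => ?_⟩
  have h6 : (⟨r (Fin.castLE h i), h2 _⟩ : Core ht) = α (en i) := by
    apply Subtype.ext
    show r (Fin.castLE h i) = r (emb en h (en i))
    unfold emb
    rw [Equiv.symm_apply_apply]
  show (α.symm ⟨r (Fin.castLE h i), h2 _⟩).1 = (en i).1
  rw [h6, Equiv.symm_apply_apply]

end Pool.Agent.Lib.P2baQ
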