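import Pool.Agent.Lib.P2baQ.Core
import Pool.Agent.Lib.P2baQ.Conn

/-!
# Module P2baQ.Img: surjective homomorphisms permute the vertices of height L

PROOF. (Compare `Lib/P2baL/Img.lean`, from which much can be copied.) Let K be minimal
(`exists_minK`), T = Tops. Choose y x with f (y x) = x for all x (injective). Y = T.image y,
Yt = the z with inl z ∈ Y, Y2 = the (p, k) with inr (p, k) ∈ Y; |Yt| + |Y2| = |T| exactly (images
under injective maps; Finset.card_toLeft_add_card_toRight).
STEP 1: Y2 = ∅. Otherwise let K2 be as in `extend_K`, U = UK K2 Yt Y2, B = image of U under f. Any two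
elements of B are joined in H inside B (`conn_UK`, `Walk.map`, `Walk.symm`), B contains T (y x ∈ U for
x ∈ T), so by `lower` and minimality of K: |K| + |T| L ≤ |B ∩ core| + |St T| ≤ |B| ≤ |U| ≤
|K| + e + |St Yt| + e |Y2| (`card_tops`: |St T| = |T| L; St T has positive heights, so it is disjoint
from the core vertices). |St Yt| ≤ ∑ ht ≤ L |Yt| (`card_St_le`, `D.le`). So L |Y2| ≤ e + e |Y2| ≤
2 e |Y2| < L |Y2| as |Y2| ≥ 1: contradiction (`D.big`).
STEP 2: now U = UK K Yt ∅, B its image: |K| + |T| L ≤ |B ∩ core| + |St T| ≤ |B| ≤ |U| ≤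
|K| + |St Yt| ≤ |K| + L |Yt| = |K| + L |T|. So everything is equal: ∑_{y ∈ Yt} ht y = L |Yt| with all
ht y ≤ L, so ht y = L for all y ∈ Yt, Yt ⊆ T, and |Yt| = |T| gives Yt = T. |B| = |U| gives
injectivity of f on U (`Finset.card_image_iff`). B is the disjoint union of its core vertices (at
least |K| many) and its vertices of positive height, which contain St T: by the equality the latter
are exactly St T. For t with ht t = L: t ∈ T = Yt, so inl t = y x for some x ∈ T and f (inl t) = x has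
height L.
-/

set_option autoImplicit false
set_option linter.unusedSectionVars false

namespace Pool.Agent.Lib.P2baQ

open Pool.Agent.Lib.P2ba8ab Pool.Agent.Lib.P2baR Pool.Agent.Lib.P2baL

variable {V : Type} {H : V → V → Prop} {par : V → V} {ht : V → ℕ} {cl : V → Bool} {v0 : V}
  {len : Bool → ℕ} {e L : ℕ} {P : Type}

namespace ImgAux

theorem walk_trans {X : Type} {G : X → X → Prop} {n m : ℕ} {u v w : X} (h : Walk G n u v)
    (h' : Walk G m v w) : ∃ k, Walk G k u w := by
  induction n generalizing u with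
  | zero =>
    obtain rfl : u = v := h
    exact ⟨m, h'⟩
  | succ n ih =>
    obtain ⟨x, hx, hw⟩ := h
    obtain ⟨k, hk⟩ := ih hw
    exact ⟨k + 1, x, hx, hk⟩

theorem mem_St [Fintype V] {Y : Finset V} {z : V} :
    z ∈ St par ht Y ↔ ∃ x ∈ Y, Anc par ht z x := by
  classical
  unfold St
  rw [Finset.mem_filter]
  exact ⟨fun h => h.2, fun h => ⟨Finset.mem_univ _, h⟩⟩

theorem mem_Tops [Fintype V] {z : V} : z ∈ Tops ht L ↔ ht z = L := by
  classical
  unfold Tops
  rw [Finset.mem_filter]
  exact ⟨fun h => h.2, fun h => ⟨Finset.mem_univ _, h⟩⟩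

theorem mem_UK [Fintype V] [Fintype P] {clP : P → Bool} {ι : Core ht → P} {he : 0 < e}
    {K Yt : Finset V} {Y2 : Finset (P × Fin e)} {w : W ht P e} :
    w ∈ UK par ht len clP ι he K Yt Y2 ↔
    ((∃ v : Core ht, w = Sum.inr (ι v, ⟨0, he⟩) ∧ v.1 ∈ K) ∨
    (∃ z : {x : V // 0 < ht x}, w = Sum.inl z ∧ z.1 ∈ St par ht Yt) ∨
    (∃ y ∈ Y2, w ∈ way ht len clP y)) := by
  classical
  unfold UK
  rw [Finset.mem_filter]
  exact ⟨fun h => h.2, fun h => ⟨Finset.mem_univ _, h⟩⟩

theorem mem_way_self [Fintype V] [Fintype P] {clP : P → Bool} (y : P × Fin e) :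
    (Sum.inr y : W ht P e) ∈ way ht len clP y := by
  classical
  unfold way
  rw [Finset.mem_filter]
  exact ⟨Finset.mem_univ _, y.2, rfl, Or.inr rfl⟩

theorem Lpos (D : DatP H par ht cl v0 len e L) : 0 < L := by
  have := D.big
  omega

open Classical in
theorem bound [Fintype P] [Fintype V] (D : DatP H par ht cl v0 len e L) (E : P → P → Prop)
    (clP : P → Bool) (ι : Core ht → P) (hι : Function.Injective ι)
    (he : 0 < e) (f : W ht P e → V)
    (hf : ∀ a b, (gr H par ht len e E clP ι (ι ⟨v0, D.v0c⟩)).Adj a b → H (f a) (f b))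
    (K : Finset V) (hmin : ∀ K' : Finset V, KS H par ht K' → K.card ≤ K'.card)
    (K2 : Finset V) (hK2 : KS H par ht K2) (Yt : Finset V) (Y2 : Finset (P × Fin e))
    (hv : Y2.Nonempty → v0 ∈ K2) (B : Finset V)
    (hB : B = (UK par ht len clP ι he K2 Yt Y2).image f)
    (hT : ∀ x, ht x = L → x ∈ B) :
    K.card ≤ (B.filter (fun v => ht v = 0)).card ∧
    St par ht (Tops ht L) ⊆ B.filter (fun v => ¬ ht v = 0) ∧
    K.card + (Tops ht L).card * L ≤ B.card := by
  obtain ⟨x1, _, hx1, _, _⟩ := D.two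
  have hk0 : root par ht x1 ∈ K2 := hK2.roots x1 (by rw [hx1]; exact Lpos D)
  have hwalkB : ∀ w ∈ UK par ht len clP ι he K2 Yt Y2, ∃ n, Walk (In H (↑B : Set V)) n (f w)
      (f (Sum.inr (ι ⟨root par ht x1, hK2.core _ hk0⟩, ⟨0, he⟩))) := by
    intro w hw
    obtain ⟨n, hn⟩ := conn_UK D E clP ι hι he K2 hK2 Yt Y2 hv
      ⟨root par ht x1, hK2.core _ hk0⟩ hk0 w hw
    refine ⟨n, Walk.map ?_ hn⟩
    rintro a b ⟨ha, hb, hab⟩
    refine ⟨?_, ?_, hf a b hab⟩
    · rw [hB]
      exact Finset.mem_coe.2 (Finset.mem_image_of_mem f (Finset.mem_coe.1 ha))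
    · rw [hB]
      exact Finset.mem_coe.2 (Finset.mem_image_of_mem f (Finset.mem_coe.1 hb))
  have hsymm : ∀ a b, In H (↑B : Set V) a b → In H (↑B : Set V) b a :=
    fun a b ⟨ha, hb, hab⟩ => ⟨hb, ha, D.trees.symm a b hab⟩
  have hwalk2 : ∀ a ∈ B, ∀ b ∈ B, ∃ n, Walk (In H (↑B : Set V)) n a b := by
    intro a ha b hb
    rw [hB] at ha hb
    obtain ⟨w, hw, rfl⟩ := Finset.mem_image.1 ha
    obtain ⟨w', hw', rfl⟩ := Finset.mem_image.1 hb
    obtain ⟨n, hn⟩ := hwalkB w hw
    obtain ⟨m, hm⟩ := hwalkB w' hw'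
    exact walk_trans hn (hm.symm hsymm)
  obtain ⟨hKS, hSt⟩ := lower D B hwalk2 hT
  have hSt2 : St par ht (Tops ht L) ⊆ B.filter (fun v => ¬ ht v = 0) := by
    intro z hz
    refine Finset.mem_filter.2 ⟨hSt hz, ?_⟩
    obtain ⟨x, -, hzx⟩ := mem_St.1 hz
    have := anc_pos D.trees hzx
    omega
  have h1 := hmin _ hKS
  have h2 := Finset.card_le_card hSt2
  rw [card_tops D] at h2
  have h3 := Finset.card_filter_add_card_filter_not (s := B) (fun v => ht v = 0)
  exact ⟨h1, hSt2, by omega⟩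

end ImgAux

open ImgAux in
theorem img [Fintype P] [Fintype V] (D : DatP H par ht cl v0 len e L) (E : P → P → Prop)
    (clP : P → Bool) (ι : Core ht → P) (hι : Function.Injective ι)
    (he : 0 < e) (f : W ht P e → V)
    (hf : ∀ a b, (gr H par ht len e E clP ι (ι ⟨v0, D.v0c⟩)).Adj a b → H (f a) (f b))
    (hs : Function.Surjective f) :
    ∃ K : Finset V, KS H par ht K ∧
      Set.InjOn f (↑(UK par ht len clP ι he K (Tops ht L) ∅) : Set (W ht P e)) ∧
      (∀ w ∈ UK par ht len clP ι he K (Tops ht L) ∅, 0 < ht (f w) →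
        f w ∈ St par ht (Tops ht L)) ∧
      ∀ t : {x : V // 0 < ht x}, ht t.1 = L → ht (f (Sum.inl t)) = L := by
  classical
  obtain ⟨K, hK, hmin⟩ := exists_minK D
  choose y hy using hs
  have hyinj : Function.Injective y := fun a b h => by rw [← hy a, h, hy b]
  set T : Finset (W ht P e) := (Tops ht L).image y with hT
  set Yt : Finset V := T.toLeft.image Subtype.val with hYt
  set Y2 : Finset (P × Fin e) := T.toRight with hY2
  have hcard : Yt.card + Y2.card = (Tops ht L).card := by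
    have h1 : Yt.card = T.toLeft.card :=
      Finset.card_image_of_injective _ Subtype.val_injective
    have h2 : T.toLeft.card + T.toRight.card = T.card := Finset.card_toLeft_add_card_toRight
    have h3 : T.card = (Tops ht L).card := Finset.card_image_of_injective _ hyinj
    rw [← hY2] at h2
    omega
  have hTB : ∀ K' : Finset V, ∀ x, ht x = L → x ∈ (UK par ht len clP ι he K' Yt Y2).image f := by
    intro K' x hx
    rw [Finset.mem_image]
    refine ⟨y x, ?_, hy x⟩
    have hyT : y x ∈ T := Finset.mem_image_of_mem y (mem_Tops.2 hx)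
    rw [mem_UK]
    rcases hc : y x with z | q
    · right; left
      refine ⟨z, rfl, mem_St.2 ⟨z.1, ?_, anc_refl z.2⟩⟩
      rw [hYt]
      refine Finset.mem_image_of_mem Subtype.val ?_
      rw [Finset.mem_toLeft, ← hc]
      exact hyT
    · right; right
      refine ⟨q, ?_, mem_way_self q⟩
      rw [hY2, Finset.mem_toRight, ← hc]
      exact hyT
  have hStY : (St par ht Yt).card ≤ Yt.card * L := by
    refine (card_St_le D.trees Yt).trans ?_
    rw [← smul_eq_mul]
    exact Finset.sum_le_card_nsmul _ _ _ (fun x _ => D.le x)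
  -- step 1
  have hY2e : Y2 = ∅ := by
    by_contra hne
    have hne' : Y2.Nonempty := Finset.nonempty_iff_ne_empty.2 hne
    obtain ⟨K2, hK2, hv0, hK2c⟩ := extend_K D hK
    obtain ⟨-, -, h1⟩ := bound D E clP ι hι he f hf K hmin K2 hK2 Yt Y2 (fun _ => hv0) _ rfl
      (hTB K2)
    have h2 : ((UK par ht len clP ι he K2 Yt Y2).image f).card ≤ _ := Finset.card_image_le
    have h3 := card_UK (par := par) (ht := ht) (len := len) clP ι he K2 Yt Y2
    have h4 : 1 ≤ Y2.card := hne'.card_pos
    have h5 := D.big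
    rw [← hcard, Nat.add_mul] at h1
    have h6 : Y2.card * L ≤ e + e * Y2.card := by omega
    have h7 : Y2.card * (2 * e + 1) ≤ Y2.card * L := Nat.mul_le_mul_left _ h5
    have h8 : e * 1 ≤ e * Y2.card := Nat.mul_le_mul_left _ h4
    nlinarith
  rw [hY2e, Finset.card_empty, Nat.add_zero] at hcard
  rw [hY2e] at hTB
  obtain ⟨h1, h2, h3⟩ := bound D E clP ι hι he f hf K hmin K hK Yt ∅ (fun h => absurd h (by simp))
    _ rfl (hTB K)
  set B : Finset V := (UK par ht len clP ι he K Yt ∅).image f with hB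
  have h4 : B.card ≤ (UK par ht len clP ι he K Yt ∅).card := Finset.card_image_le
  have h5 := card_UK (par := par) (ht := ht) (len := len) clP ι he K Yt ∅
  rw [Finset.card_empty, Nat.mul_zero, Nat.add_zero] at h5
  have h6 := card_St_le D.trees Yt
  rw [← hcard] at h3
  have hall : ∀ z ∈ Yt, ht z = L := by
    intro z hz
    by_contra hne
    have hlt : ∑ z ∈ Yt, ht z < ∑ _z ∈ Yt, L :=
      Finset.sum_lt_sum (fun x _ => D.le x) ⟨z, hz, lt_of_le_of_ne (D.le z) hne⟩
    rw [Finset.sum_const, smul_eq_mul] at hlt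
    omega
  have hYT : Yt = Tops ht L :=
    Finset.eq_of_subset_of_card_le (fun z hz => mem_Tops.2 (hall z hz)) hcard.ge
  rw [hYT] at hStY h3 h4 h5 hB
  have hBc : B.card = (UK par ht len clP ι he K (Tops ht L) ∅).card := by omega
  have hinj : Set.InjOn f (↑(UK par ht len clP ι he K (Tops ht L) ∅) : Set (W ht P e)) :=
    Finset.card_image_iff.1 (by rw [← hB]; exact hBc)
  refine ⟨K, hK, hinj, ?_, ?_⟩
  · intro w hw hpos
    have h7 := Finset.card_filter_add_card_filter_not (s := B) (fun v => ht v = 0)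
    have h8 := card_tops D
    have h9 : St par ht (Tops ht L) = B.filter (fun v => ¬ ht v = 0) :=
      Finset.eq_of_subset_of_card_le h2 (by omega)
    rw [h9, Finset.mem_filter]
    refine ⟨?_, by omega⟩
    rw [hB]
    exact Finset.mem_image_of_mem f hw
  · intro t ht'
    have h7 : t.1 ∈ Yt := by rw [hYT]; exact mem_Tops.2 ht'
    rw [hYt] at h7
    obtain ⟨z, hz, hzt⟩ := Finset.mem_image.1 h7
    have h8 : z = t := Subtype.ext hzt
    rw [h8, Finset.mem_toLeft, hT] at hz
    obtain ⟨x, hx, hxt⟩ := Finset.mem_image.1 hz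
    rw [← hxt, hy x]
    exact mem_Tops.1 hx

end Pool.Agent.Lib.P2baQ
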