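import Pool.Agent.Lib.P2baQ.Img
import Pool.Agent.Lib.P2baQ.Down
import Pool.Agent.Lib.P2baQ.Fold

/-!
# Module P2baQ.Sound: a surjective homomorphism gives a weak retraction

PROOFS. `iter_perm`: the marked elements of the finite type X form a finite type, φ restricts to an
injective map of it to itself, a permutation π of finite order m ≥ 1 (`isOfFinOrder_of_finite`,
`orderOf_pos`, `pow_orderOf_eq_one`), so φ^[m] v = v for marked v.
`sound`: f surjective homomorphism; `img`, `down`; ρ of `exists_fold`. φ v := ⟨ρ (f (ι v, 0)), _⟩.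
(a) for v ≠ w, H v w: (ι v, 0) and (ι w, 0) are adjacent in the instance (see `hadj1` in
Lib/P2baL/Sound.lean), so H (φ v) (φ w). (b) for marked v = root t, ht t = L: f (ι v, 0) =
root (f (inl t)) has height 0, so φ v = root (f (inl t)) is marked (ht (f (inl t)) = L). (c) φ is
injective on the marked vertices: root (f (inl t)) = root (f (inl t')) gives f (inl t) = f (inl t')
(`D.uniq`), so t = t' by injectivity on UK (inl t ∈ UK since t ∈ St Tops: `anc_refl`, 0 < ht t = L).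
By hloop φ preserves all H-edges of the core. Let m be as in `iter_perm`. r p := φ^[m - 1] of
⟨ρ (f (p, 0)), _⟩. For E p q: adjacent (`hadj2` in Lib/P2baL/Sound.lean), so H, ρ, φ^[m-1] preserve it
(induction on the exponent). For v ≠ w, H v w in the core: same with (ι v, 0), (ι w, 0). For marked v:
⟨ρ (f (ι v, 0)), _⟩ = φ v, and φ^[m-1] (φ v) = φ^[m] v = v (`Function.iterate_succ_apply`).
-/

set_option autoImplicit false
set_option linter.unusedSectionVars false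

namespace Pool.Agent.Lib.P2baQ

open Pool.Agent.Lib.P2ba8ab Pool.Agent.Lib.P2baR Pool.Agent.Lib.P2baL

variable {V : Type} {H : V → V → Prop} {par : V → V} {ht : V → ℕ} {cl : V → Bool} {v0 : V}
  {len : Bool → ℕ} {e L : ℕ} {P : Type}

theorem iter_perm {X : Type} [Finite X] (R : X → Prop) (φ : X → X) (h1 : ∀ v, R v → R (φ v))
    (h2 : ∀ v w, R v → R w → φ v = φ w → v = w) : ∃ m, 1 ≤ m ∧ ∀ v, R v → φ^[m] v = v := by
  classical
  let ψ : {v // R v} → {v // R v} := fun v => ⟨φ v.1, h1 v.1 v.2⟩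
  have hψ : Function.Injective ψ := fun v w h =>
    Subtype.ext (h2 v.1 w.1 v.2 w.2 (congrArg Subtype.val h))
  let π : Equiv.Perm {v // R v} := Equiv.ofBijective ψ (Finite.injective_iff_bijective.1 hψ)
  refine ⟨orderOf π, orderOf_pos π, fun v hv => ?_⟩
  have h3 : ∀ n, ((π ^ n) ⟨v, hv⟩).1 = φ^[n] v := by
    intro n
    induction n with
    | zero => rfl
    | succ n ih =>
      rw [pow_succ', Equiv.Perm.mul_apply, Function.iterate_succ_apply', ← ih]
      rfl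
  have h4 := h3 (orderOf π)
  rw [pow_orderOf_eq_one] at h4
  exact h4.symm

theorem sound [Fintype P] [Fintype V] (D : DatP H par ht cl v0 len e L)
    (hloop : ∀ φ : Core ht → Core ht,
      (∀ v w : Core ht, v ≠ w → H v.1 w.1 → H (φ v).1 (φ w).1) →
      (∀ v : Core ht, Mk par ht L v.1 → Mk par ht L (φ v).1) →
      (∀ v w : Core ht, Mk par ht L v.1 → Mk par ht L w.1 → φ v = φ w → v = w) →
      ∀ v : Core ht, H v.1 v.1 → H (φ v).1 (φ v).1)
    (E : P → P → Prop) (hE : ∀ p, ¬ E p p)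
    (clP : P → Bool) (ι : Core ht → P) (hι : Function.Injective ι)
    (h : SurjHom (gr H par ht len e E clP ι (ι ⟨v0, D.v0c⟩)) H) :
    ∃ r : P → V, (∀ p, ht (r p) = 0) ∧ (∀ p q, E p q → H (r p) (r q)) ∧
      (∀ v w : Core ht, v ≠ w → H v.1 w.1 → H (r (ι v)) (r (ι w))) ∧
      ∀ v : Core ht, Mk par ht L v.1 → r (ι v) = v.1 := by
  classical
  obtain ⟨f, hf, hs⟩ := h
  have he : 0 < e := D.epos
  have hL : 0 < L := by
    have := D.big
    omega
  obtain ⟨K, hK, hinj, himg, htop⟩ := img D E clP ι hι he f hf hs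
  have hdown := down D E clP ι he f hf K hK hinj himg htop
  have hadj1 : ∀ v w : Core ht, v ≠ w → H v.1 w.1 →
      (gr H par ht len e E clP ι (ι ⟨v0, D.v0c⟩)).Adj (Sum.inr (ι v, ⟨0, he⟩))
        (Sum.inr (ι w, ⟨0, he⟩)) := by
    intro v w hne hvw
    unfold gr
    rw [SimpleGraph.fromRel_adj]
    refine ⟨?_, Or.inl (Or.inl ⟨rfl, rfl, Or.inr ⟨v, w, rfl, rfl, hvw⟩⟩)⟩
    intro h1
    have h2 := (Prod.ext_iff.1 (Sum.inr.inj h1)).1
    exact hne (hι h2)
  have hadj2 : ∀ p q, E p q →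
      (gr H par ht len e E clP ι (ι ⟨v0, D.v0c⟩)).Adj (Sum.inr (p, ⟨0, he⟩))
        (Sum.inr (q, ⟨0, he⟩)) := by
    intro p q hpq
    unfold gr
    rw [SimpleGraph.fromRel_adj]
    refine ⟨?_, Or.inl (Or.inl ⟨rfl, rfl, Or.inl hpq⟩)⟩
    intro h1
    have h2 : p = q := (Prod.ext_iff.1 (Sum.inr.inj h1)).1
    subst h2
    exact hE _ hpq
  obtain ⟨ρ, hρ0, hρ1, hρ2, -⟩ := exists_fold D.trees
  obtain ⟨φ, hφ⟩ : ∃ φ : Core ht → Core ht, ∀ v, (φ v).1 = ρ (f (Sum.inr (ι v, ⟨0, he⟩))) :=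
    ⟨fun v => ⟨ρ (f (Sum.inr (ι v, ⟨0, he⟩))), hρ0 _⟩, fun _ => rfl⟩
  have hmk : ∀ v : Core ht, Mk par ht L v.1 → ∃ t : {x : V // 0 < ht x}, ht t.1 = L ∧
      root par ht t.1 = v.1 ∧ (φ v).1 = root par ht (f (Sum.inl t)) := by
    rintro ⟨v, hv⟩ ⟨t, ht1, ht2⟩
    refine ⟨⟨t, by omega⟩, ht1, ht2, ?_⟩
    have h5 := hdown ⟨t, by omega⟩ ht1
    have h6 : (⟨root par ht t, ht_root D.trees t⟩ : Core ht) = ⟨v, hv⟩ := Subtype.ext ht2
    rw [hφ, ← h6, h5]
    exact hρ1 _ (ht_root D.trees _)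
  have hφH : ∀ v w : Core ht, v ≠ w → H v.1 w.1 → H (φ v).1 (φ w).1 := by
    intro v w hne hvw
    rw [hφ, hφ]
    exact hρ2 _ _ (hf _ _ (hadj1 v w hne hvw))
  have hφM : ∀ v : Core ht, Mk par ht L v.1 → Mk par ht L (φ v).1 := by
    intro v hv
    obtain ⟨t, ht1, -, ht3⟩ := hmk v hv
    exact ⟨f (Sum.inl t), htop t ht1, ht3.symm⟩
  have hmem : ∀ t : {x : V // 0 < ht x}, ht t.1 = L →
      (Sum.inl t : W ht P e) ∈ UK par ht len clP ι he K (Tops ht L) ∅ := by
    intro t ht1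
    unfold UK
    rw [Finset.mem_filter]
    refine ⟨Finset.mem_univ _, Or.inr (Or.inl ⟨t, rfl, ?_⟩)⟩
    unfold St
    rw [Finset.mem_filter]
    refine ⟨Finset.mem_univ _, t.1, ?_, anc_refl t.2⟩
    unfold Tops
    rw [Finset.mem_filter]
    exact ⟨Finset.mem_univ _, ht1⟩
  have hφI : ∀ v w : Core ht, Mk par ht L v.1 → Mk par ht L w.1 → φ v = φ w → v = w := by
    intro v w hv hw hvw
    obtain ⟨t, ht1, ht2, ht3⟩ := hmk v hv
    obtain ⟨t', ht1', ht2', ht3'⟩ := hmk w hw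
    have h5 : root par ht (f (Sum.inl t)) = root par ht (f (Sum.inl t')) := by
      rw [← ht3, ← ht3', hvw]
    have h6 := D.uniq _ _ (htop t ht1) (htop t' ht1') h5
    have h7 : (Sum.inl t : W ht P e) = Sum.inl t' :=
      hinj (Finset.mem_coe.2 (hmem t ht1)) (Finset.mem_coe.2 (hmem t' ht1')) h6
    have h8 : t = t' := Sum.inl.inj h7
    subst h8
    exact Subtype.ext (ht2.symm.trans ht2')
  have hφl := hloop φ hφH hφM hφI
  have hφA : ∀ v w : Core ht, H v.1 w.1 → H (φ v).1 (φ w).1 := by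
    intro v w hvw
    by_cases hne : v = w
    · subst hne
      exact hφl v hvw
    · exact hφH v w hne hvw
  have hφi : ∀ n, ∀ v w : Core ht, H v.1 w.1 → H (φ^[n] v).1 (φ^[n] w).1 := by
    intro n
    induction n with
    | zero => exact fun v w hvw => hvw
    | succ n ih =>
      intro v w hvw
      rw [Function.iterate_succ_apply, Function.iterate_succ_apply]
      exact ih _ _ (hφA v w hvw)
  obtain ⟨m, hm, hmv⟩ := iter_perm (fun v : Core ht => Mk par ht L v.1) φ hφM hφI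
  refine ⟨fun p => (φ^[m - 1] ⟨ρ (f (Sum.inr (p, ⟨0, he⟩))), hρ0 _⟩).1, fun p => ?_, ?_, ?_, ?_⟩
  · exact (φ^[m - 1] ⟨ρ (f (Sum.inr (p, ⟨0, he⟩))), hρ0 _⟩).2
  · intro p q hpq
    exact hφi _ _ _ (hρ2 _ _ (hf _ _ (hadj2 p q hpq)))
  · intro v w hne hvw
    exact hφi _ _ _ (hρ2 _ _ (hf _ _ (hadj1 v w hne hvw)))
  · intro v hv
    have h5 : (⟨ρ (f (Sum.inr (ι v, ⟨0, he⟩))), hρ0 _⟩ : Core ht) = φ v :=
      Subtype.ext (hφ v).symm
    show (φ^[m - 1] ⟨ρ (f (Sum.inr (ι v, ⟨0, he⟩))), hρ0 _⟩).1 = v.1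
    rw [h5, ← Function.iterate_succ_apply]
    have h6 : (m - 1).succ = m := by omega
    rw [h6, hmv v hv]

end Pool.Agent.Lib.P2baQ
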