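import Pool.Agent.Lib.P2baQ.Final
import Pool.Agent.Lib.P2baL.Fwd

/-! Retraction to the core and surjective colouring, tall trees above all vertices of the core. -/

set_option autoImplicit false

namespace Pool.Agent.Lib.P2baQ

open Pool.Agent.Lib.P2ba8ab Pool.Agent.Lib.P2baR Pool.Agent.Lib.P2baL Pool.Agent.Lib.PolyTime

variable {V : Type} {H : V → V → Prop} {par : V → V} {ht : V → ℕ} {cl : V → Bool} {v0 : V}
  {e L : ℕ}

theorem toP (T : TreesL H par ht) : TreesP H par ht :=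
  ⟨T.symm, T.ht_par, T.adj_par, T.tree, T.loop, fun a ha => by
    obtain ⟨b, -, -, -, -, hb, -, hab, -⟩ := T.deg a ha
    exact ⟨b, hb, hab⟩⟩

/-- the lengths of the paths for the two classes -/
def ln (cl : V → Bool) (v0 : V) (e : ℕ) (c : Bool) : ℕ :=
  if (c = cl v0 ↔ Even e) then e else e - 1

theorem walk_ln (hcls : ∀ a b, H a b → cl a ≠ cl b) (he : 2 ≤ e)
    (hwalk : ∀ a, ht a = 0 → Walk (HC H ht) (e - 1) a v0 ∨ Walk (HC H ht) e a v0) :
    (∀ c, 1 ≤ ln cl v0 e c) ∧ (∀ c, ln cl v0 e c ≤ e) ∧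
      ∀ a, ht a = 0 → Walk (HC H ht) (ln cl v0 e (cl a)) a v0 := by
  classical
  have hpar : ∀ {n : ℕ} {a b : V}, Walk (HC H ht) n a b → (cl a = cl b ↔ Even n) := by
    intro n
    induction n with
    | zero =>
        intro a b h
        obtain rfl : a = b := h
        simp
    | succ n ih =>
        intro a b h
        obtain ⟨c, h1, h2⟩ := h
        have h3 := ih h2
        have h4 := hcls _ _ h1.2.2
        rw [Nat.even_add_one, ← h3]
        constructor
        · intro h5 h6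
          exact h4 (h5.trans h6.symm)
        · intro h5
          revert h4 h5
          cases cl a <;> cases cl b <;> cases cl c <;> simp
  refine ⟨?_, ?_, ?_⟩
  · intro c
    unfold ln
    split_ifs <;> omega
  · intro c
    unfold ln
    split_ifs <;> omega
  · intro a ha
    rcases hwalk a ha with h | h
    · have h1 := hpar h
      have h2 : ¬ (cl a = cl v0 ↔ Even e) := by
        obtain ⟨k, rfl⟩ : ∃ k, e = k + 1 := ⟨e - 1, by omega⟩
        rw [Nat.add_sub_cancel] at h1
        rw [h1, Nat.even_add_one]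
        tauto
      unfold ln
      rw [if_neg h2]
      exact h
    · have h1 := hpar h
      unfold ln
      rw [if_pos h1]
      exact h

theorem tall_bip [Finite V] (T : TreesL H par ht)
    (hcls : ∀ a b, H a b → cl a ≠ cl b) (hv0 : ht v0 = 0) (he : 2 ≤ e)
    (hwalk : ∀ a, ht a = 0 → Walk (HC H ht) (e - 1) a v0 ∨ Walk (HC H ht) e a v0)
    (htall : ∀ v, ht v = 0 → ∃ x, root par ht x = v ∧ e ≤ ht x) {n0 : ℕ}
    (en : Fin n0 ≃ Core ht) : PRed (Ret H ht en) (fun g => SurjHom g.G H) := by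
  obtain ⟨h1, h2, h3⟩ := walk_ln hcls he hwalk
  have D : DatL H par ht cl v0 (ln cl v0 e) e := ⟨T, hv0, h1, h2, h3, htall⟩
  exact PRed.trans (Q := RetCore H ht cl en)
    ⟨dcg cl en, poly_dcg en (hedge_of (toP T) hcls ⟨v0, hv0⟩ en),
      ret_dcg (toP T) hcls ⟨v0, hv0⟩ en⟩ (reduces_bip D hcls en)

theorem tall_loop [Finite V] (T : TreesL H par ht)
    (hloop : ∀ φ : Core ht ≃ Core ht,
      (∀ v w : Core ht, v ≠ w → H v.1 w.1 → H (φ v).1 (φ w).1) →
      ∀ v : Core ht, H v.1 v.1 → H (φ v).1 (φ v).1)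
    (hv0 : ht v0 = 0) (he : 1 ≤ e) (hwalk : ∀ a, ht a = 0 → Walk (HC H ht) e a v0)
    (htall : ∀ v, ht v = 0 → ∃ x, root par ht x = v ∧ e ≤ ht x) {n0 : ℕ}
    (en : Fin n0 ≃ Core ht) : PRed (Ret H ht en) (fun g => SurjHom g.G H) :=
  reduces_loop (cl := fun _ => true) ⟨T, hv0, fun _ => he, fun _ => le_rfl, hwalk, htall⟩ hloop en

/-! ### marked vertices -/

/-- The trees stand above the marked vertices, each of them has height `L` and exactly one vertex of
height `L`; there are at least two marked vertices. -/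
structure MkTrees (H : V → V → Prop) (par : V → V) (ht : V → ℕ) (L : ℕ) : Prop where
  trees : TreesP H par ht
  le : ∀ x, ht x ≤ L
  uniq : ∀ x y, ht x = L → ht y = L → root par ht x = root par ht y → x = y
  has : ∀ x, 0 < ht x → Mk par ht L (root par ht x)
  two : ∃ x y, ht x = L ∧ ht y = L ∧ root par ht x ≠ root par ht y

theorem MkTrees.dat_bip (T : MkTrees H par ht L)
    (hcls : ∀ a b, H a b → cl a ≠ cl b) (hv0 : ht v0 = 0) (he : 2 ≤ e)
    (hwalk : ∀ a, ht a = 0 → Walk (HC H ht) (e - 1) a v0 ∨ Walk (HC H ht) e a v0)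
    (hL : 2 * e < L) : DatP H par ht cl v0 (ln cl v0 e) e L := by
  obtain ⟨h1, h2, h3⟩ := walk_ln hcls he hwalk
  exact ⟨T.trees, hv0, h1, h2, h3, T.le, T.uniq, T.has, T.two, hL⟩

theorem MkTrees.dat_loop (T : MkTrees H par ht L) (hv0 : ht v0 = 0) (he : 1 ≤ e)
    (hwalk : ∀ a, ht a = 0 → Walk (HC H ht) e a v0)
    (hL : 2 * e < L) : DatP H par ht (fun _ => true) v0 (fun _ => e) e L :=
  ⟨T.trees, hv0, fun _ => he, fun _ => le_rfl, hwalk, T.le, T.uniq, T.has, T.two, hL⟩

end Pool.Agent.Lib.P2baQ
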